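import Pool.Agent.TH28.ZInt1

/-!
# Interpolation of `log S_d` near a point of `[1/4, 5/12]` (adapted from
`Pool/Agent/W366/HT/Int2.lean` and `Int.lean`)
-/

set_option autoImplicit false

namespace Pool.Agent.TH28.ZI

open Filter Finset Topology Metric MeasureTheory
open scoped Real
open Pool.Agent.W366.HT (ar fA fB gB nw nw_diff diffOn_div norm_cast_inv inv_le norm_cos_le
  norm_sin_le cosh_le_two cos_re' two_pi_re seg_int riem exp_gB sin_re_ge fB_real sumB)
open Pool.Agent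

/-- the strip -/
def D2 : Set ℂ := {z | 0 < z.re ∧ z.re < 1 / 2}

/-- the rectangle -/
def B2 : Set ℂ := {z | 1 / 5 < z.re ∧ z.re < 9 / 20 ∧ |z.im| < 1 / 20}

lemma D2_conv : Convex ℝ D2 := by
  have h := (convex_Ioo (0 : ℝ) (1 / 2)).linear_preimage Complex.reLm
  exact h

lemma D2_open : IsOpen D2 :=
  (isOpen_lt continuous_const Complex.continuous_re).inter
    (isOpen_lt Complex.continuous_re continuous_const)

lemma B2_conv : Convex ℝ B2 := by
  have h := (convex_Ioo (1 / 5 : ℝ) (9 / 20)).linear_preimage Complex.reLm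
  have h' := (convex_Ioo (-(1 / 20) : ℝ) (1 / 20)).linear_preimage Complex.imLm
  have e : B2 = Complex.reLm ⁻¹' (Set.Ioo (1 / 5 : ℝ) (9 / 20)) ∩
      Complex.imLm ⁻¹' (Set.Ioo (-(1 / 20) : ℝ) (1 / 20)) := by
    ext z
    simp only [B2, Set.mem_ofPred_eq, Set.mem_inter_iff, Set.mem_preimage, Set.mem_Ioo, abs_lt]
    exact ⟨fun h => ⟨⟨h.1, h.2.1⟩, h.2.2⟩, fun h => ⟨h.1.1, h.1.2, h.2⟩⟩
  rw [e]
  exact h.inter h'

lemma B_star {z : ℂ} (hz : z ∈ B2) {t : ℝ} (ht : 0 < t) (ht1 : t ≤ 1) : z * t ∈ D2 := by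
  obtain ⟨h1, h2, h3⟩ := hz
  have e1 : (z * t).re = z.re * t := by
    rw [Complex.re_mul_ofReal]
  constructor
  · rw [e1]
    have : 0 < z.re := by linarith
    positivity
  · rw [e1]
    nlinarith

lemma fB_slit {z : ℂ} (hz : z ∈ D2) : 2 * Complex.sin (π * z) ∈ Complex.slitPlane := by
  obtain ⟨h1, h2⟩ := hz
  rw [Complex.mem_slitPlane_iff]
  left
  linarith [sin_re_ge h1.le h2.le]

lemma fB_deriv {z : ℂ} (hz : z ∈ D2) :
    HasDerivAt fB (2 * π * Complex.cos (π * z) / (2 * Complex.sin (π * z))) z := by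
  unfold fB
  have h2 : HasDerivAt (fun z : ℂ => π * z) (π : ℂ) z := by
    simpa using (hasDerivAt_id z).const_mul (π : ℂ)
  have h3 := (h2.csin).const_mul (2 : ℂ)
  refine (h3.clog (fB_slit hz)).congr_deriv ?_
  ring

lemma fB_diff : DifferentiableOn ℂ fB D2 := fun _ hz =>
  (fB_deriv hz).differentiableAt.differentiableWithinAt

lemma B_sub : B2 ⊆ D2 := by
  rintro z ⟨h1, h2, -⟩
  constructor <;> linarith

lemma fB_bound {z : ℂ} (hz : z ∈ B2) {t : ℝ} (ht : 0 < t) (ht1 : t ≤ 1) :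
    ‖fB (z * t)‖ ≤ 10 + |Real.log t| := by
  obtain ⟨d1, d2⟩ := B_star hz ht ht1
  obtain ⟨h1, h2, h3⟩ := hz
  have g1 := sin_re_ge d1.le d2.le
  rw [Complex.re_mul_ofReal] at g1
  have g2 : t * (4 / 5) ≤ ‖2 * Complex.sin (π * (z * t))‖ := by
    refine le_trans ?_ (Complex.re_le_norm _)
    nlinarith
  have g3 : ‖2 * Complex.sin (π * (z * t))‖ ≤ 4 := by
    rw [norm_mul, Complex.norm_two]
    have g4 := norm_sin_le (π * (z * t))
    rw [Complex.im_ofReal_mul, Complex.im_mul_ofReal] at g4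
    have g5 : |π * (z.im * t)| ≤ 1 := by
      rw [abs_mul, abs_of_pos Real.pi_pos, abs_mul, abs_of_pos ht]
      have : |z.im| * t ≤ 1 / 20 * 1 := mul_le_mul h3.le ht1 ht.le (by norm_num)
      nlinarith [Real.pi_lt_d2, Real.pi_pos]
    linarith [cosh_le_two g5]
  unfold fB
  obtain ⟨q, hq⟩ : ∃ q, q = 2 * Complex.sin (π * (z * t)) := ⟨_, rfl⟩
  rw [← hq] at g2 g3 ⊢
  have hq0 : 0 < ‖q‖ := lt_of_lt_of_le (by positivity) g2
  have h4 : Complex.log q = (Real.log ‖q‖ : ℂ) + Complex.arg q * Complex.I := rfl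
  rw [h4]
  have h5 := norm_add_le (Real.log ‖q‖ : ℂ) (Complex.arg q * Complex.I)
  rw [norm_mul, Complex.norm_I, mul_one, Complex.norm_real, Complex.norm_real, Real.norm_eq_abs,
    Real.norm_eq_abs] at h5
  have h6 := Complex.abs_arg_le_pi q
  have h8 := Real.pi_lt_d2
  have h9 : |Real.log ‖q‖| ≤ 3 + |Real.log t| := by
    rw [abs_le]
    constructor
    · have k1 := Real.log_le_log (by positivity) g2
      rw [Real.log_mul ht.ne' (by norm_num)] at k1
      have k2 := Real.one_sub_inv_le_log_of_pos (by norm_num : (0:ℝ) < 4 / 5)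
      norm_num at k2
      have k3 := neg_abs_le (Real.log t)
      linarith
    · have k1 := Real.log_le_log hq0 g3
      have k2 := Real.log_le_sub_one_of_pos (by norm_num : (0:ℝ) < 4)
      have k3 := abs_nonneg (Real.log t)
      linarith
  linarith

lemma fB_bound1 {z : ℂ} (hz : z ∈ B2) : ‖fB z‖ ≤ 10 := by
  have := fB_bound hz one_pos le_rfl
  simpa using this

lemma fB_lip {z z' : ℂ} (hz : z ∈ B2) (hz' : z' ∈ B2) : ‖fB z' - fB z‖ ≤ 16 * ‖z' - z‖ := by
  refine Convex.norm_image_sub_le_of_norm_hasDerivWithin_le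
    (f' := fun z => 2 * π * Complex.cos (π * z) / (2 * Complex.sin (π * z)))
    (fun x hx => (fB_deriv (B_sub hx)).hasDerivWithinAt) (fun x hx => ?_) B2_conv hz hz'
  obtain ⟨h1, h2, h3⟩ := hx
  have h4 : 4 / 5 ≤ ‖2 * Complex.sin (π * x)‖ := by
    refine le_trans ?_ (Complex.re_le_norm _)
    linarith [sin_re_ge (z := x) (by linarith) (by linarith)]
  rw [norm_div, norm_mul, norm_mul, Complex.norm_two, Complex.norm_real, Real.norm_eq_abs,
    abs_of_pos Real.pi_pos, div_le_iff₀ (by linarith)]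
  have g4 := norm_cos_le (π * x)
  rw [Complex.im_ofReal_mul] at g4
  have g5 : |π * x.im| ≤ 1 / 5 := by
    rw [abs_mul, abs_of_pos Real.pi_pos]
    nlinarith [Real.pi_lt_d2, Real.pi_pos]
  have g6 : Real.cosh (π * x.im) ≤ 2 := cosh_le_two (by linarith)
  have hpi := Real.pi_pos
  have hpi' := Real.pi_lt_d2
  have h0 := norm_nonneg (Complex.cos (π * x))
  nlinarith

lemma fB_int {z : ℂ} (hz : z ∈ B2) :
    IntervalIntegrable (fun t : ℝ => fB (z * t)) volume 0 1 := by
  have hg : IntervalIntegrable (fun t : ℝ => 10 + |Real.log t|) volume 0 1 :=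
    intervalIntegrable_const.add intervalIntegral.intervalIntegrable_log'.abs
  refine hg.mono_fun' ?_ ?_
  · rw [Set.uIoc_of_le zero_le_one]
    refine ContinuousOn.aestronglyMeasurable ?_ measurableSet_Ioc
    refine fB_diff.continuousOn.comp (by fun_prop) ?_
    intro t ht
    exact B_star hz ht.1 ht.2
  · rw [Set.uIoc_of_le zero_le_one]
    refine (ae_restrict_iff' measurableSet_Ioc).2 (ae_of_all _ fun t ht => ?_)
    exact fB_bound hz ht.1 ht.2

lemma B2_norm {z : ℂ} (hz : z ∈ B2) : ‖z‖ ≤ 1 := by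
  obtain ⟨h1, h2, h3⟩ := hz
  refine (Complex.norm_le_abs_re_add_abs_im z).trans ?_
  rw [abs_of_pos (by linarith)]
  linarith

lemma B2_sub_norm {z w : ℂ} (hz : z ∈ B2) (hw : w ∈ B2) : ‖z - w‖ ≤ 1 := by
  obtain ⟨h1, h2, h3⟩ := hz
  obtain ⟨k1, k2, k3⟩ := hw
  refine (Complex.norm_le_abs_re_add_abs_im (z - w)).trans ?_
  rw [Complex.sub_re, Complex.sub_im]
  have a1 : |z.re - w.re| ≤ 1 / 4 := by
    rw [abs_le]
    constructor <;> linarith
  have a2 : |z.im - w.im| ≤ 1 / 10 := by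
    rw [abs_lt] at h3 k3
    rw [abs_le]
    constructor <;> linarith [h3.1, h3.2, k3.1, k3.2]
  linarith

/-- the limit of `log S_d / N`, split at `w` -/
lemma ssF_split {δ w : ℂ} (hδ : δ ∈ B2) (hw : w ∈ B2) :
    W711.HT.ssF δ = w * (∫ t in (0:ℝ)..1, fB (w * t)) +
      (δ - w) * ∫ t in (0:ℝ)..1, fB (w + (δ - w) * t) := by
  obtain ⟨F, hF⟩ := prim D2_conv D2_open fB_diff
  have hc := fB_diff.continuousOn
  have h3 := seg_int D2_conv hF hc (B_sub hw) (B_sub hδ)
  rw [h3]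
  have e : W711.HT.ssF δ = δ * ∫ t in (0:ℝ)..1, fB (δ * t) := by
    unfold W711.HT.ssF fB
    simp only [mul_assoc]
  rw [e]
  -- the defect
  obtain ⟨Δ, hΔ⟩ : ∃ Δ, Δ = δ * (∫ t in (0:ℝ)..1, fB (δ * t)) - w * (∫ t in (0:ℝ)..1, fB (w * t)) -
    (F δ - F w) := ⟨_, rfl⟩
  suffices hz : Δ = 0 by
    rw [hz] at hΔ
    linear_combination -hΔ
  have hgi : ∀ a b : ℝ, IntervalIntegrable (fun t : ℝ => 10 + |Real.log t|) volume a b := fun a b =>
    intervalIntegrable_const.add intervalIntegral.intervalIntegrable_log'.abs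
  -- integral from `η` to `1`
  have hfar : ∀ v ∈ B2, ∀ η : ℝ, 0 < η → η ≤ 1 →
      v * (∫ t in η..1, fB (v * t)) = F v - F (v * η) := by
    intro v hv η h0 h1
    have hder : ∀ t ∈ Set.uIcc η 1, HasDerivAt (fun t : ℝ => F (v * t)) (v * fB (v * t)) t := by
      intro t ht
      rw [Set.uIcc_of_le h1] at ht
      have g1 : HasDerivAt (fun t : ℝ => v * (t : ℂ)) v t := by
        have g2 : HasDerivAt (fun t : ℝ => (t : ℂ)) 1 t := Complex.ofRealCLM.hasDerivAt
        simpa using g2.const_mul v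
      have g3 := (hF _ (B_star hv (h0.trans_le ht.1) ht.2)).comp t g1
      refine g3.congr_deriv ?_
      ring
    have hcont : ContinuousOn (fun t : ℝ => v * fB (v * t)) (Set.uIcc η 1) := by
      refine continuousOn_const.mul (hc.comp (by fun_prop) ?_)
      intro t ht
      rw [Set.uIcc_of_le h1] at ht
      exact B_star hv (h0.trans_le ht.1) ht.2
    rw [← intervalIntegral.integral_const_mul,
      intervalIntegral.integral_eq_sub_of_hasDerivAt hder hcont.intervalIntegrable]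
    simp
  -- integral from `0` to `η`
  have hnear : ∀ v ∈ B2, ∀ η : ℝ, 0 < η → η ≤ 1 →
      ‖v * (∫ t in (0:ℝ)..η, fB (v * t))‖ ≤ ∫ t in (0:ℝ)..η, (10 + |Real.log t|) := by
    intro v hv η h0 h1
    have hv1 : ‖v‖ ≤ 1 := B2_norm hv
    have g1 : ‖∫ t in (0:ℝ)..η, fB (v * t)‖ ≤ ∫ t in (0:ℝ)..η, (10 + |Real.log t|) := by
      refine intervalIntegral.norm_integral_le_of_norm_le h0.le ?_ (hgi 0 η)
      exact ae_of_all _ fun t ht => fB_bound hv ht.1 (ht.2.trans h1)
    rw [norm_mul]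
    calc ‖v‖ * ‖∫ t in (0:ℝ)..η, fB (v * t)‖ ≤ 1 * ‖∫ t in (0:ℝ)..η, fB (v * t)‖ :=
          mul_le_mul_of_nonneg_right hv1 (norm_nonneg _)
      _ ≤ _ := by rw [one_mul]; exact g1
  have hbd : ∀ η : ℝ, 0 < η → η ≤ 1 → ‖Δ‖ ≤ 2 * (∫ t in (0:ℝ)..η, (10 + |Real.log t|)) +
      η * (10 + |Real.log η|) := by
    intro η h0 h1
    have hs : ∀ v ∈ B2, v * (∫ t in (0:ℝ)..1, fB (v * t)) =
        v * (∫ t in (0:ℝ)..η, fB (v * t)) + (F v - F (v * η)) := by
      intro v hv
      rw [← hfar v hv η h0 h1, ← mul_add, intervalIntegral.integral_add_adjacent_intervals]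
      · refine (fB_int hv).mono_set ?_
        rw [Set.uIcc_of_le h0.le, Set.uIcc_of_le zero_le_one]
        exact Set.Icc_subset_Icc_right h1
      · refine (fB_int hv).mono_set ?_
        rw [Set.uIcc_of_le h1, Set.uIcc_of_le zero_le_one]
        exact Set.Icc_subset_Icc_left h0.le
    have h4 := seg_int D2_conv hF hc (B_star hw h0 h1) (B_star hδ h0 h1)
    have h5 : ‖F (δ * η) - F (w * η)‖ ≤ η * (10 + |Real.log η|) := by
      rw [← h4, norm_mul]
      have g1 : ‖δ * η - w * η‖ ≤ η := by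
        rw [← sub_mul, norm_mul, Complex.norm_real, Real.norm_eq_abs, abs_of_pos h0]
        have : ‖δ - w‖ ≤ 1 := B2_sub_norm hδ hw
        nlinarith
      have g2 : ‖∫ t in (0:ℝ)..1, fB (w * η + (δ * η - w * η) * t)‖ ≤
          (10 + |Real.log η|) * |1 - 0| := by
        refine intervalIntegral.norm_integral_le_of_norm_le_const fun t ht => ?_
        rw [Set.uIoc_of_le zero_le_one] at ht
        have e1 : w * η + (δ * η - w * η) * t = (w + (δ - w) * t) * η := by ring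
        rw [e1]
        refine fB_bound ?_ h0 h1
        have := B2_conv hw hδ (sub_nonneg.2 ht.2) ht.1.le (by ring)
        rw [Complex.real_smul, Complex.real_smul] at this
        have e : w + (δ - w) * t = ((1 - t : ℝ) : ℂ) * w + (t : ℂ) * δ := by push_cast; ring
        rw [e]; exact this
      rw [sub_zero, abs_one, mul_one] at g2
      exact mul_le_mul g1 g2 (norm_nonneg _) h0.le
    have h6 : Δ = δ * (∫ t in (0:ℝ)..η, fB (δ * t)) - w * (∫ t in (0:ℝ)..η, fB (w * t)) -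
        (F (δ * η) - F (w * η)) := by
      rw [hΔ, hs δ hδ, hs w hw]
      ring
    rw [h6]
    have k1 := norm_sub_le (δ * (∫ t in (0:ℝ)..η, fB (δ * t)) - w * (∫ t in (0:ℝ)..η, fB (w * t)))
      (F (δ * η) - F (w * η))
    have k2 := norm_sub_le (δ * (∫ t in (0:ℝ)..η, fB (δ * t))) (w * (∫ t in (0:ℝ)..η, fB (w * t)))
    have k3 := hnear δ hδ η h0 h1
    have k4 := hnear w hw η h0 h1
    linarith
  -- limit
  have hlim : Tendsto (fun η : ℝ => 2 * (∫ t in (0:ℝ)..η, (10 + |Real.log t|)) +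
      (10 * η + |η * Real.log η|)) (𝓝[>] 0) (𝓝 0) := by
    have c1 : Continuous fun η : ℝ => ∫ t in (0:ℝ)..η, (10 + |Real.log t|) :=
      intervalIntegral.continuous_primitive hgi 0
    have c2 : Continuous fun η : ℝ => 2 * (∫ t in (0:ℝ)..η, (10 + |Real.log t|)) +
        (10 * η + |η * Real.log η|) :=
      (continuous_const.mul c1).add ((continuous_const.mul continuous_id).add
        Real.continuous_mul_log.abs)
    have := c2.tendsto 0
    simp only [intervalIntegral.integral_same, mul_zero, zero_mul, abs_zero, add_zero] at this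
    exact this.mono_left nhdsWithin_le_nhds
  have hle : ‖Δ‖ ≤ 0 := by
    refine ge_of_tendsto hlim ?_
    filter_upwards [Ioc_mem_nhdsGT one_pos] with η hη
    refine (hbd η hη.1 hη.2).trans (le_of_eq ?_)
    rw [abs_mul, abs_of_pos hη.1]
    ring
  exact norm_le_zero_iff.1 hle

lemma ball_B2 {δ₀ : ℝ} (h0 : 1 / 4 ≤ δ₀) (h1 : δ₀ ≤ 5 / 12) {r : ℝ} (hr : r ≤ 1 / 40) :
    ball (δ₀ : ℂ) r ⊆ B2 := by
  intro z hz
  rw [mem_ball, dist_eq_norm] at hz
  have a1 := (Complex.abs_re_le_norm (z - δ₀)).trans_lt hz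
  have a2 := (Complex.abs_im_le_norm (z - δ₀)).trans_lt hz
  rw [Complex.sub_re, Complex.ofReal_re, abs_lt] at a1
  rw [Complex.sub_im, Complex.ofReal_im, sub_zero] at a2
  exact ⟨by linarith [a1.1], by linarith [a1.2], by linarith⟩

lemma shift2 {δ₀ R : ℝ} (h0 : 1 / 4 ≤ δ₀) (h1 : δ₀ ≤ 5 / 12) (hR : R ≤ 1 / 100) {z : ℂ}
    (hz : z ∈ ball (δ₀ : ℂ) R) {x : ℝ} (hx0 : 0 ≤ x) (hx1 : x ≤ R) : z + x ∈ B2 := by
  apply ball_B2 h0 h1 (r := 2 * R) (by linarith)
  rw [mem_ball, dist_eq_norm] at hz ⊢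
  have e : z + x - δ₀ = (z - δ₀) + ((x : ℝ) : ℂ) := by ring
  rw [e]
  refine (norm_add_le _ _).trans_lt ?_
  rw [norm_cast_inv hx0]
  linarith

/-- interpolation of `log S_d` -/
theorem famB {δ₀ R : ℝ} (h0 : 1 / 4 ≤ δ₀) (h1 : δ₀ ≤ 5 / 12) (hR : 0 < R) (hR1 : R ≤ 1 / 100)
    {ρ : ℝ} (hρ0 : 0 < ρ) (hρR : ρ < R) (hNw : NW R ρ) :
    ∃ s : ℕ → ℂ → ℂ,
      (∀ᶠ N : ℕ in atTop, DifferentiableOn ℂ (s N) (ball (δ₀ : ℂ) (ρ / 2))) ∧
      (∀ᶠ N : ℕ in atTop, ∀ d : ℕ, |(d : ℝ) / N - δ₀| < ρ / 2 →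
        (W711.HT.Sd N d : ℂ) = Complex.exp (N * s N ((d : ℂ) / N))) ∧
      TendstoUniformlyOn s W711.HT.ssF atTop (ball (δ₀ : ℂ) (ρ / 2)) := by
  have hρδ : ρ ≤ δ₀ := by linarith
  obtain ⟨m, hm⟩ : ∃ m : ℕ → ℕ, m = mN δ₀ ρ := ⟨_, rfl⟩
  have hm1 : ∀ᶠ N : ℕ in atTop, |(m N : ℝ) / N - (δ₀ - ρ)| ≤ ρ / 4 := by
    rw [hm]
    exact mN_ev hρ0 hρδ
  have hm2 : ∀ᶠ N : ℕ in atTop, δ₀ - R < (m N : ℝ) / N := by
    rw [hm]
    exact (mN_tendsto hρδ).eventually_const_lt (by linarith)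
  have hbB : ball (δ₀ : ℂ) R ⊆ B2 := ball_B2 h0 h1 (by linarith)
  obtain ⟨cB, DB, hcB, hsB, hlB⟩ := hNw δ₀ Unit
    (fun N _ z => fB (z + (1 / N : ℝ))) (fun _ z => fB z) 10
    (by
      filter_upwards [inv_ev hR] with N hN k
      refine (fB_diff.mono B_sub).comp (by fun_prop) ?_
      intro z hz
      exact shift2 h0 h1 hR1 hz (by positivity) hN.2.2)
    (by
      intro k
      exact fB_diff.mono (hbB.trans B_sub))
    (by
      filter_upwards [inv_ev hR] with N hN k z hz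
      exact fB_bound1 (shift2 h0 h1 hR1 hz (by positivity) hN.2.2))
    (by
      intro ε hε
      have hlim : Tendsto (fun N : ℕ => 16 * (1 / (N : ℝ))) atTop (𝓝 0) := by
        have := (tendsto_one_div_atTop_nhds_zero_nat (𝕜 := ℝ)).const_mul 16
        simpa using this
      filter_upwards [inv_ev hR, hlim.eventually_lt_const hε] with N hN hN2 k z hz
      refine (fB_lip (hbB hz) (shift2 h0 h1 hR1 hz (by positivity) hN.2.2)).trans ?_
      rw [add_sub_cancel_left, norm_cast_inv (by positivity)]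
      exact hN2.le)
    m hm1
  refine ⟨fun N z => (∑ k ∈ range (m N), ((gB ((k + 1) / N) : ℝ) : ℂ)) / N +
      (∑ j ∈ range (DB N), cB N j () * nw N (m N) j z) / N, ?_, ?_, ?_⟩
  · -- differentiability of `s`
    filter_upwards with N
    refine DifferentiableOn.add (differentiableOn_const _) (DifferentiableOn.div_const
      (DifferentiableOn.fun_sum fun j _ => ?_) _)
    exact ((nw_diff _ _ _).differentiableOn).const_mul _
  · -- interpolation
    filter_upwards [inv_ev hR, hm1, hm2, hsB] with N hN hmN hmN2 hsB d hd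
    have hN0 : 0 < N := hN.1
    have hN' : (0 : ℝ) < N := by exact_mod_cast hN0
    have hNc : (N : ℂ) ≠ 0 := by exact_mod_cast hN0.ne'
    have hmd : m N ≤ d := by
      have h1 : (m N : ℝ) / N ≤ (d : ℝ) / N := by
        have h2 := (abs_le.1 hmN).2
        have h3 := (abs_lt.1 hd).1
        linarith
      rw [div_le_div_iff_of_pos_right hN'] at h1
      exact_mod_cast h1
    have hdN : (d : ℝ) / N < 1 / 2 := by
      have h3 := (abs_lt.1 hd).2
      linarith
    have hnw : ∀ j, nw N (m N) j ((d : ℂ) / N) =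
        (∏ i ∈ range (j + 1), ((d : ℂ) - m N - i)) / ((j + 1).factorial : ℂ) := by
      intro j
      unfold nw
      rw [mul_div_cancel₀ _ hNc]
    have h1 := hsB () d hd.le
    have e1 : ∑ j ∈ range (DB N), cB N j () * nw N (m N) j ((d : ℂ) / N) =
        ∑ j ∈ Ico (m N) d, fB ((j : ℂ) / N + (1 / N : ℝ)) := by
      rw [h1]
      refine sum_congr rfl fun j _ => ?_
      rw [hnw]
    have e2 : ∑ j ∈ Ico (m N) d, fB ((j : ℂ) / N + (1 / N : ℝ)) =
        ∑ j ∈ Ico (m N) d, ((gB ((j + 1) / N) : ℝ) : ℂ) := by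
      refine sum_congr rfl fun j hj => ?_
      rw [mem_Ico] at hj
      have hj' : (j : ℝ) + 1 ≤ d := by exact_mod_cast hj.2
      rw [← fB_real (by positivity)]
      · congr 1
        push_cast
        ring
      · have : ((j : ℝ) + 1) / N ≤ (d : ℝ) / N := div_le_div_of_nonneg_right hj' hN'.le
        linarith
    have e3 : (N : ℂ) * ((∑ k ∈ range (m N), ((gB ((k + 1) / N) : ℝ) : ℂ)) / N +
        (∑ j ∈ range (DB N), cB N j () * nw N (m N) j ((d : ℂ) / N)) / N) =
        ∑ k ∈ range d, ((gB ((k + 1) / N) : ℝ) : ℂ) := by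
      rw [e1, e2, ← add_div, mul_div_cancel₀ _ hNc]
      exact sum_range_add_sum_Ico _ hmd
    rw [e3, Complex.exp_sum]
    unfold W711.HT.Sd
    rw [Complex.ofReal_prod]
    refine prod_congr rfl fun k hk => ?_
    rw [exp_gB]
    have hdN2 : (d : ℝ) < N := by
      rw [div_lt_iff₀ hN'] at hdN
      linarith
    have hdN3 : d < N := by exact_mod_cast hdN2
    have := mem_range.1 hk
    omega
  · -- the limit of `s`
    rw [Metric.tendstoUniformlyOn_iff]
    intro ε hε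
    filter_upwards [inv_ev hR, hm1, hm2, hlB (ε / 3) (by linarith),
      sumB (by linarith : 0 < ε / 3)] with N hN hmN hmN2 hlB hsum z hz
    have hN0 : 0 < N := hN.1
    have hN' : (0 : ℝ) < N := by exact_mod_cast hN0
    have hδ : z ∈ B2 := hbB (ball_subset_ball (by linarith) hz)
    have hmN3 : (m N : ℝ) / N ≤ δ₀ := by
      have := (abs_le.1 hmN).2
      linarith
    have hm0 : 0 < m N := by
      rcases Nat.eq_zero_or_pos (m N) with h | h
      · rw [h, Nat.cast_zero, zero_div] at hmN2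
        linarith
      · exact h
    have hw : ((m N : ℂ) / N) ∈ B2 := by
      have e : ((m N : ℂ) / N) = (((m N : ℝ) / N : ℝ) : ℂ) := by push_cast; rfl
      rw [e]
      refine ⟨?_, ?_, ?_⟩
      · rw [Complex.ofReal_re]; linarith
      · rw [Complex.ofReal_re]; linarith
      · rw [Complex.ofReal_im]; norm_num
    have h1 := hsum (m N) hm0 (by linarith)
    have h2 := hlB () z hz
    have h3 := ssF_split hδ hw
    rw [dist_comm, dist_eq_norm]
    rw [h3]
    refine lt_of_le_of_lt (le_trans (le_of_eq ?_) ((norm_add_le _ _).trans (add_le_add h1 h2))) ?_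
    · congr 1
      unfold nw
      ring
    · linarith

end Pool.Agent.TH28.ZI
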