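import Pool.Agent.TH563.Z.Defs
import Pool.Agent.TH28.ZInt2

/-! Job 363 (Z-INT, MP_bdeb5b_gt, for helper563). -/

set_option autoImplicit false

namespace Pool.Agent.TH28.ZI

open Filter Finset Topology Metric
open scoped Real
open Pool.Agent.TH563.Z (Adm dz S_INTZ)

theorem dz_ge {η : ℝ} : 1 / 4 ≤ dz η := by
  unfold dz
  have h1 := Real.one_le_cosh η
  have hx : (1 - Real.cosh η) / (3 + Real.cosh η) ≤ 0 :=
    div_nonpos_of_nonpos_of_nonneg (by linarith) (by linarith)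
  have h2 : π / 2 ≤ Real.arccos ((1 - Real.cosh η) / (3 + Real.cosh η)) := by
    rw [← Real.arccos_zero]
    exact Real.arccos_le_arccos hx
  have hpi := Real.pi_pos
  rw [le_div_iff₀ (by positivity)]
  linarith

theorem cosh_le_seven {η : ℝ} (h : Adm η) : Real.cosh η ≤ 7 := by
  have h1 : Real.cosh η = 2 * Real.cosh (η / 2) ^ 2 - 1 := by
    have h2 := Real.cosh_two_mul (η / 2)
    have h3 := Real.cosh_sq (η / 2)
    have e : 2 * (η / 2) = η := by ring
    rw [e] at h2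
    linarith
  have h2 := h.2
  have h3 := Real.one_le_cosh (η / 2)
  rw [h1]
  nlinarith

theorem dz_le {η : ℝ} (h : Adm η) : dz η ≤ 5 / 12 := by
  unfold dz
  have h1 := Real.one_le_cosh η
  have h7 := cosh_le_seven h
  have hx : -(3 / 5 : ℝ) ≤ (1 - Real.cosh η) / (3 + Real.cosh η) := by
    rw [le_div_iff₀ (by linarith)]
    linarith
  have hpi := Real.pi_pos
  have h3 : Real.cos (5 * π / 6) ≤ -(3 / 5 : ℝ) := by
    have e : 5 * π / 6 = π - π / 6 := by ring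
    rw [e, Real.cos_pi_sub, Real.cos_pi_div_six]
    have h4 : (6 / 5 : ℝ) ≤ Real.sqrt 3 := Real.le_sqrt_of_sq_le (by norm_num)
    linarith
  have h5 := Real.arccos_le_arccos (h3.trans hx)
  rw [Real.arccos_cos (by positivity) (by linarith)] at h5
  rw [div_le_iff₀ (by positivity)]
  linarith

theorem intz : Pool.Agent.TH563.Z.S_INTZ := by
  intro η hη
  have h0 := dz_ge (η := η)
  have h1 := dz_le hη
  obtain ⟨R₀, hR₀, hdata⟩ := data (δ₀ := dz η) (by linarith) (by linarith) hη.1.le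
  obtain ⟨R, hR⟩ : ∃ R : ℝ, R = min R₀ (1 / 100) := ⟨_, rfl⟩
  have hR0 : 0 < R := by rw [hR]; positivity
  have hR1 : R ≤ R₀ := by rw [hR]; exact min_le_left _ _
  have hR2 : R ≤ 1 / 100 := by rw [hR]; exact min_le_right _ _
  obtain ⟨D, c, M, L, hd⟩ := hdata R hR0 hR1
  obtain ⟨ρ, hρ0, hρR, hNw⟩ := nw_ex R hR0
  have hA := hd 0 le_rfl hη.1.le
  have hB := hd η hη.1.le le_rfl
  obtain ⟨r, r1, r2, r3⟩ := famA hA hR0 (by linarith) hρ0 hρR (by linarith) hNw
  obtain ⟨r', q1, q2, q3⟩ := famA hB hR0 (by linarith) hρ0 hρR (by linarith) hNw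
  obtain ⟨s, s1, s2, s3⟩ := famB h0 h1 hR0 hR2 hρ0 hρR hNw
  have e0 : ((0 : ℝ) : ℂ) * Complex.I = 0 := by simp
  rw [e0] at r1 r2 r3
  refine ⟨ρ / 2, by linarith, by linarith, r, r', s, r1, q1, s1, ?_, r3, q3, s3⟩
  filter_upwards [r2, q2, s2] with N a1 a2 a3 d hd
  exact ⟨a1 d hd, a2 d hd, a3 d hd⟩

end Pool.Agent.TH28.ZI
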