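import Pool.Agent.TH37.RF.Defs
import Pool.Agent.H854R3.CR.Stmts
import Pool.Agent.H66R3.CR.Mat
import Pool.Agent.H428R3.CRLeft

set_option autoImplicit false

/-! Job RF-DETECT (MP_5aea19_al, for helper37). -/

namespace Pool.Agent.TH28.RFDetect

open Pool.Agent.TH37.RF (Mono)
open Pool.Agent.H854R3.CR (PIOn)
open Pool.Agent.H854R3.NE (npw npw_eq_pow)

/-- the augmentation ideal -/
theorem mem_ker {F C : Type} [Field F] [Ring C] [Algebra F C] (ε : C →ₐ[F] F) (x : C) :
    x ∈ TwoSidedIdeal.ker ε ↔ ε x = 0 := by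
  rw [TwoSidedIdeal.mem_ker]

theorem fgen {F C : Type} [Field F] [Finite F] [Ring C] [Algebra F C] (ε : C →ₐ[F] F)
    (hfg : Pool.Agent.TH37.RF.FGen ε) : Pool.Agent.H854R3.CR.FGen C := by
  obtain ⟨r, b, -, hb⟩ := hfg
  refine ⟨Set.range b ∪ Set.range (algebraMap F C), (Set.finite_range _).union (Set.finite_range _),
    ?_⟩
  rw [eq_top_iff]
  rintro x -
  have hx : x ∈ Algebra.adjoin F (Set.range b) := by rw [hb]; trivial
  induction hx using Algebra.adjoin_induction with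
  | mem x hx => exact NonUnitalSubring.subset_closure (Or.inl hx)
  | algebraMap r => exact NonUnitalSubring.subset_closure (Or.inr ⟨r, rfl⟩)
  | add x y _ _ hx hy => exact add_mem hx hy
  | mul x y _ _ hx hy => exact mul_mem hx hy

/-- The kernel of a nonunital ring homomorphism, as an ideal. -/
def kerI {C M : Type} [Ring C] [Ring M] (Θ : C →ₙ+* M) : Ideal C where
  carrier := {x | Θ x = 0}
  add_mem' := by
    intro a b (ha : Θ a = 0) (hb : Θ b = 0)
    show Θ (a + b) = 0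
    rw [map_add, ha, hb, add_zero]
  zero_mem' := map_zero Θ
  smul_mem' := by
    intro c x (hx : Θ x = 0)
    show Θ (c * x) = 0
    rw [map_mul, hx, mul_zero]

theorem mem_kerI {C M : Type} [Ring C] [Ring M] (Θ : C →ₙ+* M) (x : C) :
    x ∈ kerI Θ ↔ Θ x = 0 := Iff.rfl

instance {C M : Type} [Ring C] [Ring M] (Θ : C →ₙ+* M) : (kerI Θ).IsTwoSided where
  mul_mem_of_left := by
    intro a b (ha : Θ a = 0)
    show Θ (a * b) = 0
    rw [map_mul, ha, zero_mul]

theorem finite_quot {C M : Type} [Ring C] [Ring M] [Finite M] (Θ : C →ₙ+* M) :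
    Finite (C ⧸ kerI Θ) := by
  have hinj : Function.Injective (fun q : C ⧸ kerI Θ => Θ (Quotient.out q)) := by
    intro q q' h
    have h1 : Θ (Quotient.out q - Quotient.out q') = 0 := by
      rw [map_sub]
      exact sub_eq_zero.2 h
    have h2 : (Ideal.Quotient.mk (kerI Θ)) (Quotient.out q) =
        (Ideal.Quotient.mk (kerI Θ)) (Quotient.out q') := by
      rw [Ideal.Quotient.eq]
      exact h1
    calc q = (Ideal.Quotient.mk (kerI Θ)) (Quotient.out q) := (Quotient.out_eq q).symm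
      _ = _ := h2
      _ = q' := Quotient.out_eq q'
  exact Finite.of_injective _ hinj

/-- A non-nilpotent element of a finite algebra survives in a matrix algebra over a finite
field. -/
theorem detect_fin {F E : Type} [Field F] [Finite F] [Ring E] [Algebra F E] [Finite E] (β : E)
    (hβ : ∀ k, β ^ k ≠ 0) :
    ∃ (n : ℕ) (D : Type) (_ : Field D) (_ : Finite D) (_ : Algebra F D)
      (ψ : E →ₐ[F] Matrix (Fin n) (Fin n) D), Function.Surjective ψ ∧ ψ β ≠ 0 := by
  classical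
  have : Module.Finite F E := Module.Finite.of_finite
  let J : Ideal E := Ring.jacobson E
  haveI : J.IsTwoSided := inferInstanceAs (Ring.jacobson E).IsTwoSided
  have hβJ : β ∉ J := by
    intro h
    obtain ⟨k, hk⟩ := (IsSemiprimaryRing.isNilpotent : IsNilpotent (Ring.jacobson E))
    have h1 : β ^ k ∈ J ^ k := Ideal.pow_mem_pow h k
    have h2 : J ^ k = 0 := hk
    rw [h2] at h1
    exact hβ k h1
  obtain ⟨m, D, d, iD, iA, iF, hd, ⟨e⟩⟩ :=
    IsSemisimpleRing.exists_algEquiv_pi_matrix_divisionRing_finite F (E ⧸ J)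
  have h3 : e (Ideal.Quotient.mkₐ F J β) ≠ 0 := by
    intro h
    have h4 : Ideal.Quotient.mkₐ F J β = 0 := by
      apply e.injective
      rw [h, map_zero]
    exact hβJ ((Ideal.Quotient.eq_zero_iff_mem).1 h4)
  obtain ⟨i, hi⟩ : ∃ i, e (Ideal.Quotient.mkₐ F J β) i ≠ 0 := by
    by_contra hcon
    push Not at hcon
    exact h3 (funext hcon)
  haveI : Finite (D i) := Module.finite_of_finite F
  refine ⟨d i, D i, littleWedderburn (D i), inferInstance, iA i,
    (Pi.evalAlgHom F (fun i => Matrix (Fin (d i)) (Fin (d i)) (D i)) i).comp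
      (e.toAlgHom.comp (Ideal.Quotient.mkₐ F J)), ?_, hi⟩
  intro M
  obtain ⟨x, hx⟩ := e.surjective (Pi.single i M)
  obtain ⟨y, rfl⟩ := Ideal.Quotient.mkₐ_surjective F J x
  refine ⟨y, ?_⟩
  show e (Ideal.Quotient.mkₐ F J y) i = M
  rw [hx, Pi.single_eq_same]

/-- JOB DETECT -/
theorem detect {F C : Type} [Field F] [Finite F] [Ring C] [Algebra F C] (ε : C →ₐ[F] F)
    (hfg : Pool.Agent.TH37.RF.FGen ε) (hPI : PIOn {x : C | ε x = 0}) (β : C) (hβ : ε β = 0)
    (hnil : ∀ k, β ^ k ≠ 0) :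
    ∃ (n : ℕ) (D : Type) (_ : Field D) (_ : Finite D) (_ : Algebra F D)
      (ψ : C →ₐ[F] Matrix (Fin n) (Fin n) D), Function.Surjective ψ ∧ ψ β ≠ 0 := by
  have hset : ((TwoSidedIdeal.ker ε : TwoSidedIdeal C) : Set C) = {x : C | ε x = 0} := by
    ext x
    exact mem_ker ε x
  obtain ⟨K, iK, s, Θ, hΘ⟩ := Pool.Agent.H66R3.CR.taskMat C (TwoSidedIdeal.ker ε)
    (by rw [hset]; exact hPI) β ((mem_ker ε β).2 hβ) hnil
  obtain ⟨L, iL, hL, Θ', hΘ'⟩ := Pool.Agent.H428R3.CRLeft.finite_red' (fgen ε hfg)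
    (Θ : C →ₙ+* Matrix (Fin s) (Fin s) K) β (fun k => by
      rw [npw_eq_pow]
      exact hΘ (k + 1))
  haveI := finite_quot Θ'
  have hpow : ∀ k : ℕ, Θ' (β ^ (k + 1)) = (Θ' β) ^ (k + 1) := by
    intro k
    induction k with
    | zero => simp
    | succ k ih => rw [pow_succ, map_mul, ih, ← pow_succ]
  obtain ⟨n, D, i1, i2, i3, ψ, h1, h2⟩ := detect_fin (F := F)
    (Ideal.Quotient.mkₐ F (kerI Θ') β) (fun k hk => by
      have h3 : Ideal.Quotient.mkₐ F (kerI Θ') (β ^ (k + 1)) = 0 := by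
        rw [map_pow, pow_succ, hk, zero_mul]
      have h4 : β ^ (k + 1) ∈ kerI Θ' := (Ideal.Quotient.eq_zero_iff_mem).1 h3
      rw [mem_kerI, hpow] at h4
      exact hΘ' k (by rw [npw_eq_pow]; exact h4))
  exact ⟨n, D, i1, i2, i3, ψ.comp (Ideal.Quotient.mkₐ F (kerI Θ')),
    h1.comp (Ideal.Quotient.mkₐ_surjective F _), h2⟩

end Pool.Agent.TH28.RFDetect
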