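import Pool.Agent.TH37.RF.Ids

set_option autoImplicit false

/-! Job RF-NEC (MP_5aea19_al, for helper37). -/

namespace Pool.Agent.TH28.RFNec

open Pool.Agent.TH37.RF Polynomial

section

variable (F : Type) [Field F]

/-- Quadruples `(a, b, s, f)`. -/
def NA : Type := F[X] × F[X] × F × F[X]

noncomputable instance : AddCommGroup (NA F) := inferInstanceAs (AddCommGroup (F[X] × F[X] × F × F[X]))

noncomputable instance : Module F (NA F) := inferInstanceAs (Module F (F[X] × F[X] × F × F[X]))

end

variable {F : Type} [Field F]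

open Classical in
/-- `λ (X ^ j) = 1` if `j` is a power of two and `0` otherwise. -/
noncomputable def lam : F[X] →ₗ[F] F :=
  Polynomial.lsum fun j => if ∃ k, j = 2 ^ k then (LinearMap.id : F →ₗ[F] F) else 0

open Classical in
theorem lam_monomial (j : ℕ) (c : F) : lam (monomial j c) = if ∃ k, j = 2 ^ k then c else 0 := by
  unfold lam
  rw [Polynomial.lsum_apply, Polynomial.sum_monomial_index]
  · split_ifs <;> simp
  · simp

/-- the constructor -/
def mk (a b : F[X]) (s : F) (f : F[X]) : NA F := (a, b, s, f)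

noncomputable instance : Mul (NA F) :=
  ⟨fun x y => mk (x.1 * y.2.2.2) (x.2.2.2 * y.2.1) (lam (x.1 * y.2.1)) (x.2.2.2 * y.2.2.2)⟩

theorem mk_mul (a b : F[X]) (s : F) (f a' b' : F[X]) (s' : F) (f' : F[X]) :
    mk a b s f * mk a' b' s' f' = mk (a * f') (f * b') (lam (a * b')) (f * f') := rfl

theorem mk_add (a b : F[X]) (s : F) (f a' b' : F[X]) (s' : F) (f' : F[X]) :
    mk a b s f + mk a' b' s' f' = mk (a + a') (b + b') (s + s') (f + f') := rfl

theorem mk_smul (c : F) (a b : F[X]) (s : F) (f : F[X]) :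
    c • mk a b s f = mk (c • a) (c • b) (c • s) (c • f) := rfl

theorem mk_zero : mk 0 0 0 0 = (0 : NA F) := rfl

theorem ext_mk {a b : F[X]} {s : F} {f a' b' : F[X]} {s' : F} {f' : F[X]} (h1 : a = a')
    (h2 : b = b') (h3 : s = s') (h4 : f = f') : mk a b s f = mk a' b' s' f' := by
  subst h1 h2 h3 h4; rfl

noncomputable instance : NonUnitalRing (NA F) where
  left_distrib := by
    rintro ⟨a, b, s, f⟩ ⟨a', b', s', f'⟩ ⟨a'', b'', s'', f''⟩
    change mk a b s f * (mk a' b' s' f' + mk a'' b'' s'' f'') =
      mk a b s f * mk a' b' s' f' + mk a b s f * mk a'' b'' s'' f''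
    simp only [mk_mul, mk_add, mul_add, map_add]
  right_distrib := by
    rintro ⟨a, b, s, f⟩ ⟨a', b', s', f'⟩ ⟨a'', b'', s'', f''⟩
    change (mk a b s f + mk a' b' s' f') * mk a'' b'' s'' f'' =
      mk a b s f * mk a'' b'' s'' f'' + mk a' b' s' f' * mk a'' b'' s'' f''
    simp only [mk_mul, mk_add, add_mul, map_add]
  zero_mul := by
    rintro ⟨a, b, s, f⟩
    change mk 0 0 0 0 * mk a b s f = mk 0 0 0 0
    simp only [mk_mul, zero_mul, map_zero]
  mul_zero := by
    rintro ⟨a, b, s, f⟩
    change mk a b s f * mk 0 0 0 0 = mk 0 0 0 0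
    simp only [mk_mul, mul_zero, map_zero]
  mul_assoc := by
    rintro ⟨a, b, s, f⟩ ⟨a', b', s', f'⟩ ⟨a'', b'', s'', f''⟩
    change (mk a b s f * mk a' b' s' f') * mk a'' b'' s'' f'' =
      mk a b s f * (mk a' b' s' f' * mk a'' b'' s'' f'')
    simp only [mk_mul, mul_assoc]

instance : IsScalarTower F (NA F) (NA F) where
  smul_assoc := by
    rintro c ⟨a, b, s, f⟩ ⟨a', b', s', f'⟩
    change (c • mk a b s f) * mk a' b' s' f' = c • (mk a b s f * mk a' b' s' f')
    simp only [mk_mul, mk_smul, smul_mul_assoc, map_smul]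

instance : SMulCommClass F (NA F) (NA F) where
  smul_comm := by
    rintro c ⟨a, b, s, f⟩ ⟨a', b', s', f'⟩
    change c • (mk a b s f * mk a' b' s' f') = mk a b s f * (c • mk a' b' s' f')
    simp only [mk_mul, mk_smul, mul_smul_comm, map_smul]

/-! ## Generation -/

/-- the four generators -/
def gen : Set (NA F) := {mk 1 0 0 0, mk 0 1 0 0, mk 0 0 0 1, mk 0 0 0 X}

theorem mem_f (f : F[X]) : mk 0 0 0 f ∈ NonUnitalAlgebra.adjoin F (gen (F := F)) := by
  induction f using Polynomial.induction_on' with
  | add p q hp hq =>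
    have : (mk 0 0 0 (p + q) : NA F) = mk 0 0 0 p + mk 0 0 0 q := by
      rw [mk_add]; simp only [add_zero]
    rw [this]
    exact add_mem hp hq
  | monomial n c =>
    have key : ∀ n : ℕ, (mk 0 0 0 (X ^ n) : NA F) ∈ NonUnitalAlgebra.adjoin F (gen (F := F)) := by
      intro n
      induction n with
      | zero =>
        rw [pow_zero]
        exact NonUnitalAlgebra.subset_adjoin F (by simp [gen])
      | succ n ih =>
        have h1 : (mk 0 0 0 X : NA F) ∈ NonUnitalAlgebra.adjoin F (gen (F := F)) :=
          NonUnitalAlgebra.subset_adjoin F (by simp [gen])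
        have : (mk 0 0 0 (X ^ (n + 1)) : NA F) = mk 0 0 0 (X ^ n) * mk 0 0 0 X := by
          rw [mk_mul, pow_succ]
          simp
        rw [this]
        exact mul_mem ih h1
    have : (mk 0 0 0 (monomial n c) : NA F) = c • mk 0 0 0 (X ^ n) := by
      rw [mk_smul]
      apply ext_mk <;> simp [smul_eq_C_mul, C_mul_X_pow_eq_monomial]
    rw [this]
    exact SMulMemClass.smul_mem _ (key n)

theorem adjoin_gen : NonUnitalAlgebra.adjoin F (gen (F := F)) = ⊤ := by
  rw [eq_top_iff]
  rintro ⟨a, b, s, f⟩ -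
  have h1 : (mk 1 0 0 0 : NA F) ∈ NonUnitalAlgebra.adjoin F (gen (F := F)) :=
    NonUnitalAlgebra.subset_adjoin F (by simp [gen])
  have h2 : (mk 0 1 0 0 : NA F) ∈ NonUnitalAlgebra.adjoin F (gen (F := F)) :=
    NonUnitalAlgebra.subset_adjoin F (by simp [gen])
  have hb : ∀ b : F[X], (mk 0 b 0 0 : NA F) ∈ NonUnitalAlgebra.adjoin F (gen (F := F)) := by
    intro b
    have : (mk 0 b 0 0 : NA F) = mk 0 0 0 b * mk 0 1 0 0 := by
      rw [mk_mul]
      simp
    rw [this]
    exact mul_mem (mem_f b) h2
  have ha : (mk a 0 0 0 : NA F) ∈ NonUnitalAlgebra.adjoin F (gen (F := F)) := by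
    have : (mk a 0 0 0 : NA F) = mk 1 0 0 0 * mk 0 0 0 a := by
      rw [mk_mul]
      simp
    rw [this]
    exact mul_mem h1 (mem_f a)
  have hs : (mk 0 0 s 0 : NA F) ∈ NonUnitalAlgebra.adjoin F (gen (F := F)) := by
    have : (mk 0 0 s 0 : NA F) = mk 1 0 0 0 * mk 0 (monomial 1 s) 0 0 := by
      rw [mk_mul]
      apply ext_mk
      · simp
      · simp
      · rw [one_mul, lam_monomial, if_pos ⟨0, by norm_num⟩]
      · simp
    rw [this]
    exact mul_mem h1 (hb _)
  have e : ((a, b, s, f) : NA F) = mk a 0 0 0 + mk 0 b 0 0 + mk 0 0 s 0 + mk 0 0 0 f := by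
    rw [mk_add, mk_add, mk_add]
    simp only [add_zero, zero_add]
    rfl
  rw [e]
  exact add_mem (add_mem (add_mem ha (hb b)) hs) (mem_f f)

/-! ## Identities -/

theorem prodNE_cons {A : Type} [NonUnitalRing A] (x : A) {l : List A} (hl : l ≠ []) :
    prodNE (x :: l) = x * prodNE l := by
  cases l with
  | nil => exact absurd rfl hl
  | cons y l => rfl

/-- the product of the last components -/
noncomputable def FF (l : List (NA F)) : F[X] := (l.map fun x => x.2.2.2).prod

theorem prodNE_eq (m : List (NA F)) : ∀ x y : NA F, prodNE (x :: (m ++ [y])) =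
    mk (x.1 * FF m * y.2.2.2) (x.2.2.2 * FF m * y.2.1) (lam (x.1 * FF m * y.2.1))
      (x.2.2.2 * FF m * y.2.2.2) := by
  induction m with
  | nil =>
    intro x y
    have : FF ([] : List (NA F)) = 1 := rfl
    rw [this]
    simp only [mul_one]
    rfl
  | cons z m ih =>
    intro x y
    have e : FF (z :: m) = z.2.2.2 * FF m := by
      unfold FF
      rw [List.map_cons, List.prod_cons]
    rw [List.cons_append, prodNE_cons x (by simp), ih z y, e]
    change mk (x.1 * _) (x.2.2.2 * _) (lam (x.1 * _)) (x.2.2.2 * _) = _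
    apply ext_mk
    · simp only [mk]; ring
    · simp only [mk]; ring
    · simp only [mk]; congr 1; ring
    · simp only [mk]; ring

theorem value_eq {w w' : List ℕ} (h : SameType w w') (a : ℕ → NA F) :
    prodNE (w.map a) = prodNE (w'.map a) := by
  obtain ⟨h1, h2, h3⟩ := h
  cases w with
  | nil =>
    rw [List.nil_perm] at h3
    rw [h3]
  | cons x t =>
    cases w' with
    | nil => simp at h3
    | cons x' t' =>
      have hx : x = x' := by simpa using h1
      subst hx
      have h4 : t.Perm t' := by simpa using h3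
      rcases List.eq_nil_or_concat t with rfl | ⟨m, y, rfl⟩
      · rw [List.nil_perm] at h4
        rw [h4]
      · rcases List.eq_nil_or_concat t' with rfl | ⟨m', y', rfl⟩
        · simp at h4
        · have hy : y = y' := by
            simpa [List.getLast?_cons] using h2
          subst hy
          have h5 : m.Perm m' := by
            simpa [List.concat_eq_append, List.perm_append_right_iff] using h4
          simp only [List.concat_eq_append, List.map_cons, List.map_append, List.map_nil]
          rw [prodNE_eq, prodNE_eq]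
          have e : FF (m.map a) = FF (m'.map a) := by
            unfold FF
            exact ((h5.map a).map _).prod_eq
          rw [e]

open Classical in
theorem sat (f : List ℕ →₀ F) (hf : TrivialId f) : Satisfies (NA F) f := by
  intro a
  let T : List ℕ → Option ℕ × Option ℕ × Multiset ℕ := fun w => (w.head?, w.getLast?, (w : Multiset ℕ))
  have hT : ∀ w w', SameType w w' ↔ T w' = T w := by
    intro w w'
    constructor
    · rintro ⟨h1, h2, h3⟩
      simp only [T]
      rw [h1, h2, Multiset.coe_eq_coe.2 h3]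
    · intro h
      simp only [T, Prod.mk.injEq, Multiset.coe_eq_coe] at h
      exact ⟨h.1.symm, h.2.1.symm, h.2.2.symm⟩
  unfold Finsupp.sum
  rw [← Finset.sum_fiberwise_of_maps_to (g := T) (t := f.support.image T)
    (fun w hw => Finset.mem_image_of_mem T hw)]
  apply Finset.sum_eq_zero
  intro τ hτ
  obtain ⟨w0, hw0, rfl⟩ := Finset.mem_image.1 hτ
  have h1 : ∑ w ∈ f.support with T w = T w0, f w • prodNE (w.map a) =
      ∑ w ∈ f.support with T w = T w0, f w • prodNE (w0.map a) := by
    apply Finset.sum_congr rfl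
    intro w hw
    rw [Finset.mem_filter] at hw
    rw [value_eq ((hT w0 w).2 hw.2) a]
  rw [h1, ← Finset.sum_smul]
  by_cases hw : w0 = []
  · subst hw
    have : prodNE (([] : List ℕ).map a) = 0 := rfl
    rw [this, smul_zero]
  · have h2 := hf w0 hw
    have h3 : (∑ᶠ (w' : List ℕ) (_ : SameType w0 w'), f w') =
        ∑ w ∈ f.support with T w = T w0, f w := by
      have : (∑ᶠ (w' : List ℕ) (_ : w' ∈ {w' | SameType w0 w'}), f w') =
          ∑ w ∈ f.support with T w = T w0, f w := by
        apply finsum_mem_eq_sum_of_inter_support_eq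
        ext w
        simp only [Set.mem_inter_iff, Set.mem_ofPred_eq, Function.mem_support, Finset.coe_filter,
          Finsupp.mem_support_iff, hT]
        tauto
      exact this
    rw [← h3, h2, zero_smul]

/-! ## Not residually finite -/

theorem lam_shift (f : F[X]) (hf : f ≠ 0) :
    lam (X ^ (2 ^ (f.natDegree + 1) - f.natDegree) * f) = f.leadingCoeff := by
  classical
  set d := f.natDegree with hd
  have hlt : d < 2 ^ d := Nat.lt_two_pow_self
  have h2 : 2 ^ (d + 1) = 2 * 2 ^ d := by rw [pow_succ, mul_comm]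
  set k := 2 ^ (d + 1) - d with hk
  have e : X ^ k * f = ∑ j ∈ f.support, monomial (k + j) (f.coeff j) := by
    conv_lhs => rw [f.as_sum_support, Finset.mul_sum]
    apply Finset.sum_congr rfl
    intro j _
    rw [X_pow_mul_monomial, add_comm]
  rw [e, map_sum, Finset.sum_eq_single d]
  · rw [lam_monomial, if_pos ⟨d + 1, by omega⟩]
    rfl
  · intro j hj hjd
    rw [lam_monomial, if_neg]
    rintro ⟨m, hm⟩
    have hjle : j ≤ d := le_natDegree_of_mem_supp j hj
    have hjlt : j < d := lt_of_le_of_ne hjle hjd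
    have hm1 : 2 ^ m < 2 ^ (d + 1) := by omega
    have hm2 : 2 ^ d < 2 ^ m := by omega
    have hm3 : m < d + 1 := (Nat.pow_lt_pow_iff_right (by norm_num)).1 hm1
    have hm4 : d < m := (Nat.pow_lt_pow_iff_right (by norm_num)).1 hm2
    omega
  · intro h
    exact absurd (natDegree_mem_support_of_nonzero hf) h

theorem not_rf {B : Type} [NonUnitalRing B] [Module F B] [IsScalarTower F B B]
    [SMulCommClass F B B] [Module.Finite F B] (φ : NA F →ₙₐ[F] B) : φ (mk 0 0 1 0) = 0 := by
  let g : F[X] →ₗ[F] B :=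
    { toFun := fun f => φ (mk 0 0 0 f)
      map_add' := by
        intro f f'
        rw [← map_add, mk_add]
        simp only [add_zero]
      map_smul' := by
        intro c f
        rw [RingHom.id_apply, ← map_smul, mk_smul]
        simp only [smul_zero] }
  have hg : ¬ Function.Injective g := by
    intro hinj
    have : Module.Finite F F[X] := Module.Finite.of_injective g hinj
    exact Polynomial.not_finite this
  obtain ⟨f, hf, hf0⟩ : ∃ f : F[X], g f = 0 ∧ f ≠ 0 := by
    by_contra hcon
    push Not at hcon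
    exact hg ((injective_iff_map_eq_zero g).2 hcon)
  have hf1 : φ (mk 0 0 0 f) = 0 := hf
  have h1 : mk (X ^ (2 ^ (f.natDegree + 1) - f.natDegree)) 0 0 0 * mk 0 0 0 f * mk 0 1 0 0 =
      f.leadingCoeff • (mk 0 0 1 0 : NA F) := by
    rw [mk_mul, mk_mul, mk_smul]
    apply ext_mk
    · simp
    · simp
    · rw [mul_one, lam_shift f hf0]
      simp
    · simp
  have h2 := congrArg φ h1
  rw [map_mul, map_mul, hf1, mul_zero, zero_mul, map_smul] at h2
  have h3 : f.leadingCoeff ≠ 0 := leadingCoeff_ne_zero.2 hf0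
  exact (smul_eq_zero_iff_right h3).1 h2.symm

/-- JOB NEC -/
theorem nec (F : Type) [Field F] [Finite F] :
    ∃ (A : Type) (_ : NonUnitalRing A) (_ : Module F A) (_ : IsScalarTower F A A)
      (_ : SMulCommClass F A A),
      (∃ s : Set A, s.Finite ∧ NonUnitalAlgebra.adjoin F s = ⊤) ∧
      (∀ f : List ℕ →₀ F, TrivialId f → Satisfies A f) ∧
      ∃ a : A, a ≠ 0 ∧ ∀ (B : Type) [NonUnitalRing B] [Module F B] [IsScalarTower F B B]
        [SMulCommClass F B B] [Module.Finite F B] (φ : A →ₙₐ[F] B), φ a = 0 := by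
  refine ⟨NA F, inferInstance, inferInstance, inferInstance, inferInstance,
    ⟨gen, by unfold gen; exact Set.toFinite _, adjoin_gen⟩, fun f hf => sat f hf, mk 0 0 1 0, ?_,
    fun B _ _ _ _ _ φ => not_rf φ⟩
  intro h
  have h1 : (mk 0 0 1 0 : NA F) = mk 0 0 0 0 := h
  have h2 : (1 : F) = 0 := congrArg (fun x : NA F => x.2.2.1) h1
  exact one_ne_zero h2

end Pool.Agent.TH28.RFNec
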