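import Pool.Agent.W366.HT.Int
import Pool.Agent.W176.HTN.Newt

/-!
# Interpolation of `log R_d` near an arbitrary point `δ₀ < 1 / 2`, for `ψ` near a point of the
imaginary axis (adapted from `Pool/Agent/W366/HT/Int.lean`)
-/

set_option autoImplicit false

namespace Pool.Agent.TH28.ZI

open Filter Finset Topology Metric MeasureTheory
open scoped Real
open Pool.Agent.W366.HT (ar fA fB gB nw nw_diff diffOn_div norm_cast_inv inv_le norm_cos_le
  norm_sin_le cosh_le_two cos_re' two_pi_re seg_int riem)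
open Pool.Agent

/-! ### The Lipschitz bound for the cosine -/

lemma convex_im (H : ℝ) : Convex ℝ {z : ℂ | |z.im| ≤ H} := by
  have h := (convex_Icc (-H) H).linear_preimage Complex.imLm
  have e : {z : ℂ | |z.im| ≤ H} = Complex.imLm ⁻¹' (Set.Icc (-H) H) := by
    ext z
    simp [abs_le]
  rw [e]
  exact h

lemma cos_lip {H : ℝ} {z w : ℂ} (hz : |z.im| ≤ H) (hw : |w.im| ≤ H) :
    ‖Complex.cos z - Complex.cos w‖ ≤ Real.cosh H * ‖z - w‖ := by
  refine Convex.norm_image_sub_le_of_norm_hasDerivWithin_le (f' := fun z => -Complex.sin z)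
    (fun x _ => (Complex.hasDerivAt_cos x).hasDerivWithinAt) (fun x hx => ?_) (convex_im H) hw hz
  rw [norm_neg]
  refine (norm_sin_le x).trans ?_
  rw [Real.cosh_le_cosh]
  exact hx.trans (le_abs_self H)

/-! ### The data -/

/-- A convex open set containing the interval, on which the logarithm is analytic. -/
structure Dt (δ₀ R : ℝ) (b : ℂ) (D : Set ℂ) (c M L : ℝ) : Prop where
  conv : Convex ℝ D
  op : IsOpen D
  c0 : 0 < c
  L0 : 0 ≤ L
  mr : ∀ x : ℝ, 0 ≤ x → x ≤ δ₀ + 2 * R → (x : ℂ) ∈ D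
  mb : ball (δ₀ : ℂ) (2 * R) ⊆ D
  re : ∀ ψ ∈ ball b R, ∀ z ∈ D, c ≤ (ar ψ z).re
  nrm : ∀ ψ ∈ ball b R, ∀ z ∈ D, ‖fA ψ z‖ ≤ M
  lip : ∀ ψ ∈ ball b R, ∀ z ∈ D, ∀ z' ∈ D, ‖fA ψ z' - fA ψ z‖ ≤ L * ‖z' - z‖

lemma norm_log_le2 {w : ℂ} {c M : ℝ} (hc : 0 < c) (h1 : c ≤ w.re) (h2 : ‖w‖ ≤ M) :
    ‖Complex.log w‖ ≤ M + 1 / c + 4 := by
  have h3 : c ≤ ‖w‖ := h1.trans (Complex.re_le_norm w)
  have h30 : 0 < ‖w‖ := hc.trans_le h3
  have h4 : Complex.log w = (Real.log ‖w‖ : ℂ) + Complex.arg w * Complex.I := rfl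
  rw [h4]
  have h5 := norm_add_le (Real.log ‖w‖ : ℂ) (Complex.arg w * Complex.I)
  rw [norm_mul, Complex.norm_I, mul_one, Complex.norm_real, Complex.norm_real, Real.norm_eq_abs,
    Real.norm_eq_abs] at h5
  have h6 := Complex.abs_arg_le_pi w
  have h8 := Real.pi_lt_d2
  have h9 : |Real.log ‖w‖| ≤ M + 1 / c := by
    rw [abs_le]
    constructor
    · have k1 := Real.one_sub_inv_le_log_of_pos h30
      have k2 : ‖w‖⁻¹ ≤ 1 / c := by
        rw [one_div]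
        exact inv_anti₀ hc h3
      linarith
    · have k1 := Real.log_le_sub_one_of_pos h30
      have k2 : 0 < 1 / c := by positivity
      linarith
  linarith

lemma ar_deriv {ψ z : ℂ} (h : ar ψ z ∈ Complex.slitPlane) :
    HasDerivAt (fA ψ) (-(4 * π * Complex.sin (2 * π * z)) / ar ψ z) z := by
  unfold fA
  have h1 : HasDerivAt (ar ψ) (-(4 * π * Complex.sin (2 * π * z))) z := by
    unfold ar
    have h2 : HasDerivAt (fun z : ℂ => 2 * π * z) (2 * π : ℂ) z := by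
      simpa using (hasDerivAt_id z).const_mul (2 * π : ℂ)
    have h3 := ((h2.ccos).const_mul (2 : ℂ)).const_add (2 * Complex.cos ψ)
    refine h3.congr_deriv ?_
    ring
  exact h1.clog h

lemma slit_of_re {w : ℂ} {c : ℝ} (hc : 0 < c) (h : c ≤ w.re) : w ∈ Complex.slitPlane := by
  rw [Complex.mem_slitPlane_iff]
  left
  linarith

/-- the data exist -/
theorem data {δ₀ : ℝ} (h0 : 0 ≤ δ₀) (h1 : δ₀ < 1 / 2) {H : ℝ} (hH : 0 ≤ H) :
    ∃ R₀ : ℝ, 0 < R₀ ∧ ∀ R : ℝ, 0 < R → R ≤ R₀ → ∃ (D : Set ℂ) (c M L : ℝ),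
      ∀ h : ℝ, 0 ≤ h → h ≤ H → Dt δ₀ R (h * Complex.I) D c M L := by
  have hpi := Real.pi_gt_three
  have hpi' := Real.pi_lt_d2
  obtain ⟨c₀, hc₀⟩ : ∃ c₀ : ℝ, c₀ = 2 + 2 * Real.cos (2 * π * δ₀) := ⟨_, rfl⟩
  have hc0 : 0 < c₀ := by
    have h2 : Real.cos π < Real.cos (2 * π * δ₀) := by
      apply Real.cos_lt_cos_of_nonneg_of_le_pi (by positivity) le_rfl
      nlinarith
    rw [Real.cos_pi] at h2
    rw [hc₀]
    linarith
  have hch := Real.cosh_pos (H + 1)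
  refine ⟨min (1 / 100) (c₀ / (4 * Real.cosh (H + 1) + 200)), by positivity, ?_⟩
  intro R hR hR0
  have hR1 : R ≤ 1 / 100 := hR0.trans (min_le_left _ _)
  have hR2 : R * (4 * Real.cosh (H + 1) + 200) ≤ c₀ := by
    have := hR0.trans (min_le_right _ _)
    rwa [le_div_iff₀ (by positivity)] at this
  obtain ⟨S, hS⟩ : ∃ S : Set ℂ, S = (fun x : ℝ => (x : ℂ)) '' Set.Icc 0 δ₀ := ⟨_, rfl⟩
  have hSc : Convex ℝ S := by
    rw [hS]
    exact (convex_Icc 0 δ₀).linear_image Complex.ofRealCLM.toLinearMap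
  obtain ⟨D, hD⟩ : ∃ D : Set ℂ, D = thickening (3 * R) S := ⟨_, rfl⟩
  have hmem : ∀ z ∈ D, ∃ t : ℝ, 0 ≤ t ∧ t ≤ δ₀ ∧ ‖z - t‖ < 3 * R := by
    intro z hz
    rw [hD, mem_thickening_iff] at hz
    obtain ⟨w, hw, hzw⟩ := hz
    rw [hS] at hw
    obtain ⟨t, ht, rfl⟩ := hw
    exact ⟨t, ht.1, ht.2, by rwa [dist_eq_norm] at hzw⟩
  -- bound of the imaginary part
  have him : ∀ z ∈ D, |(2 * π * z : ℂ).im| ≤ 1 := by
    intro z hz
    obtain ⟨t, ht0, ht1, hzt⟩ := hmem z hz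
    have h2 := (Complex.abs_im_le_norm (z - t)).trans_lt hzt
    rw [Complex.sub_im, Complex.ofReal_im, sub_zero] at h2
    rw [(two_pi_re z).2, abs_mul, abs_of_pos (by positivity)]
    nlinarith [abs_nonneg z.im]
  have hbim : ∀ h : ℝ, 0 ≤ h → h ≤ H → ∀ ψ ∈ ball (h * Complex.I) R, |ψ.im| ≤ H + 1 := by
    intro h hh0 hhH ψ hψ
    rw [mem_ball, dist_eq_norm] at hψ
    have h2 := (Complex.abs_im_le_norm (ψ - h * Complex.I)).trans_lt hψ
    have e : (ψ - h * Complex.I).im = ψ.im - h := by simp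
    rw [e] at h2
    rw [abs_lt] at h2
    rw [abs_le]
    constructor <;> linarith [h2.1, h2.2]
  have hre : ∀ h : ℝ, 0 ≤ h → h ≤ H → ∀ ψ ∈ ball (h * Complex.I) R, ∀ z ∈ D,
      c₀ / 2 ≤ (ar ψ z).re := by
    intro h hh0 hhH ψ hψ z hz
    obtain ⟨t, ht0, ht1, hzt⟩ := hmem z hz
    have a1 : ‖Complex.cos ψ - Complex.cos (h * Complex.I)‖ ≤ Real.cosh (H + 1) * R := by
      refine (cos_lip (hbim h hh0 hhH ψ hψ) (w := h * Complex.I) ?_).trans ?_
      · have : (h * Complex.I : ℂ).im = h := by simp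
        rw [this, abs_of_nonneg hh0]
        linarith
      · rw [mem_ball, dist_eq_norm] at hψ
        exact mul_le_mul_of_nonneg_left hψ.le hch.le
    have a2 : ‖Complex.cos (2 * π * z) - Complex.cos (2 * π * t)‖ ≤ 2 * (2 * π * (3 * R)) := by
      refine (cos_lip (H := 1) (him z hz) (w := 2 * π * t) ?_).trans ?_
      · have : (2 * π * (t : ℂ)).im = 0 := by
          rw [(two_pi_re (t : ℂ)).2]; simp
        rw [this]; norm_num
      · have e : (2 * π * z - 2 * π * t : ℂ) = ((2 * π : ℝ) : ℂ) * (z - t) := by push_cast; ring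
        rw [e, norm_mul, Complex.norm_real, Real.norm_eq_abs, abs_of_pos (by positivity)]
        have b2 := cosh_le_two (y := 1) (by norm_num)
        have b3 := Real.cosh_pos 1
        gcongr
    have b1 := Complex.abs_re_le_norm (Complex.cos ψ - Complex.cos (h * Complex.I))
    have b2 := Complex.abs_re_le_norm (Complex.cos (2 * π * z) - Complex.cos (2 * π * t))
    rw [Complex.sub_re] at b1 b2
    have b3 := (abs_le.1 (b1.trans a1)).1
    have b4 := (abs_le.1 (b2.trans a2)).1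
    have b5 : (Complex.cos (h * Complex.I)).re = Real.cosh h := by
      rw [cos_re']
      simp
    have b6 : (Complex.cos (2 * π * t)).re = Real.cos (2 * π * t) := by
      rw [cos_re', (two_pi_re (t : ℂ)).1, (two_pi_re (t : ℂ)).2]
      simp
    rw [b5] at b3
    rw [b6] at b4
    have b7 := Real.one_le_cosh h
    have b8 : Real.cos (2 * π * δ₀) ≤ Real.cos (2 * π * t) := by
      apply Real.cos_le_cos_of_nonneg_of_le_pi (by positivity) (by nlinarith)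
      nlinarith
    have e : (ar ψ z).re = 2 * (Complex.cos ψ).re + 2 * (Complex.cos (2 * π * z)).re := by
      unfold ar
      rw [Complex.add_re]
      have e1 : (2 * Complex.cos ψ).re = 2 * (Complex.cos ψ).re := by simp
      have e2 : (2 * Complex.cos (2 * π * z)).re = 2 * (Complex.cos (2 * π * z)).re := by
        rw [Complex.mul_re]; simp
      rw [e1, e2]
    rw [e]
    nlinarith
  have hnrm : ∀ h : ℝ, 0 ≤ h → h ≤ H → ∀ ψ ∈ ball (h * Complex.I) R, ∀ z ∈ D,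
      ‖ar ψ z‖ ≤ 2 * Real.cosh (H + 1) + 4 := by
    intro h hh0 hhH ψ hψ z hz
    have a1 : ‖Complex.cos ψ‖ ≤ Real.cosh (H + 1) := by
      refine (norm_cos_le ψ).trans ?_
      rw [Real.cosh_le_cosh]
      exact (hbim h hh0 hhH ψ hψ).trans (le_abs_self _)
    have a2 := (norm_cos_le (2 * π * z)).trans (cosh_le_two (him z hz))
    unfold ar
    refine (norm_add_le _ _).trans ?_
    rw [norm_mul, norm_mul, Complex.norm_two]
    linarith
  refine ⟨D, c₀ / 2, 2 * Real.cosh (H + 1) + 4 + 1 / (c₀ / 2) + 4, 4 * π * 2 / (c₀ / 2), ?_⟩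
  intro h hh0 hhH
  refine ⟨?_, ?_, by positivity, by positivity, ?_, ?_, hre h hh0 hhH, ?_, ?_⟩
  · rw [hD]
    exact hSc.thickening _
  · rw [hD]
    exact isOpen_thickening
  · intro x hx0 hx1
    rw [hD, mem_thickening_iff]
    rcases le_total x δ₀ with hx | hx
    · exact ⟨x, by rw [hS]; exact ⟨x, ⟨hx0, hx⟩, rfl⟩, by rw [dist_self]; positivity⟩
    · refine ⟨δ₀, by rw [hS]; exact ⟨δ₀, ⟨h0, le_rfl⟩, rfl⟩, ?_⟩
      rw [dist_eq_norm, ← Complex.ofReal_sub, Complex.norm_real, Real.norm_eq_abs,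
        abs_of_nonneg (by linarith)]
      linarith
  · intro z hz
    rw [hD, mem_thickening_iff]
    refine ⟨δ₀, by rw [hS]; exact ⟨δ₀, ⟨h0, le_rfl⟩, rfl⟩, ?_⟩
    rw [mem_ball] at hz
    linarith
  · intro ψ hψ z hz
    exact norm_log_le2 (by positivity) (hre h hh0 hhH ψ hψ z hz) (hnrm h hh0 hhH ψ hψ z hz)
  · intro ψ hψ z hz z' hz'
    have hDc : Convex ℝ D := by
      rw [hD]
      exact hSc.thickening _
    refine Convex.norm_image_sub_le_of_norm_hasDerivWithin_le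
      (f' := fun z => -(4 * π * Complex.sin (2 * π * z)) / ar ψ z)
      (fun x hx => (ar_deriv (slit_of_re (by positivity)
        (hre h hh0 hhH ψ hψ x hx))).hasDerivWithinAt) (fun x hx => ?_) hDc hz hz'
    have h4 : c₀ / 2 ≤ ‖ar ψ x‖ := (hre h hh0 hhH ψ hψ x hx).trans (Complex.re_le_norm _)
    have h5 := (norm_sin_le (2 * π * x)).trans (cosh_le_two (him x hx))
    rw [norm_div, norm_neg, norm_mul, norm_mul, Complex.norm_real, Real.norm_eq_abs,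
      abs_of_pos Real.pi_pos]
    have e4 : ‖(4:ℂ)‖ = 4 := by simp
    rw [e4]
    gcongr

section

variable {δ₀ R : ℝ} {b : ℂ} {D : Set ℂ} {c M L : ℝ}

lemma Dt.slit (hd : Dt δ₀ R b D c M L) {ψ z : ℂ} (hψ : ψ ∈ ball b R) (hz : z ∈ D) :
    ar ψ z ∈ Complex.slitPlane := slit_of_re hd.c0 (hd.re ψ hψ z hz)

lemma Dt.ne (hd : Dt δ₀ R b D c M L) {ψ z : ℂ} (hψ : ψ ∈ ball b R) (hz : z ∈ D) :
    ar ψ z ≠ 0 := Complex.slitPlane_ne_zero (hd.slit hψ hz)

lemma Dt.diff (hd : Dt δ₀ R b D c M L) {ψ : ℂ} (hψ : ψ ∈ ball b R) :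
    DifferentiableOn ℂ (fA ψ) D := fun _ hz =>
  (ar_deriv (hd.slit hψ hz)).differentiableAt.differentiableWithinAt

lemma Dt.diffψ (hd : Dt δ₀ R b D c M L) {z : ℂ} (hz : z ∈ D) :
    DifferentiableOn ℂ (fun ψ => fA ψ z) (ball b R) := by
  unfold fA
  refine DifferentiableOn.clog ?_ (fun ψ hψ => hd.slit hψ hz)
  unfold ar
  fun_prop

/-- primitives -/
lemma prim {U : Set ℂ} (hU : Convex ℝ U) (ho : IsOpen U) {f : ℂ → ℂ}
    (hf : DifferentiableOn ℂ f U) : ∃ F : ℂ → ℂ, ∀ z ∈ U, HasDerivAt F (f z) z := by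
  obtain ⟨F, hF⟩ := hU.exists_forall_hasDerivWithinAt hf
  exact ⟨F, fun z hz => (hF z hz).hasDerivAt (ho.mem_nhds hz)⟩

/-- the limit of `log R_d / N`, split at `w` -/
lemma Dt.rrF_split (hd : Dt δ₀ R b D c M L) (hR : 0 < R) (h0 : 0 ≤ δ₀) {ψ δ w : ℂ}
    (hψ : ψ ∈ ball b R) (hδ : δ ∈ D) (hw : w ∈ D) :
    W711.HT.rrF δ ψ = w * (∫ t in (0:ℝ)..1, fA ψ (w * t)) +
      (δ - w) * ∫ t in (0:ℝ)..1, fA ψ (w + (δ - w) * t) := by
  obtain ⟨F, hF⟩ := prim hd.conv hd.op (hd.diff hψ)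
  have hc := (hd.diff hψ).continuousOn
  have h0 : (0 : ℂ) ∈ D := by
    have := hd.mr 0 le_rfl (by linarith)
    simpa using this
  have h1 := seg_int hd.conv hF hc h0 hδ
  have h2 := seg_int hd.conv hF hc h0 hw
  have h3 := seg_int hd.conv hF hc hw hδ
  simp only [zero_add, sub_zero] at h1 h2
  rw [h2, h3]
  unfold W711.HT.rrF
  have e : ∀ t : ℝ, Complex.log (2 * Complex.cos ψ + 2 * Complex.cos (2 * π * δ * t)) =
      fA ψ (δ * t) := by
    intro t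
    unfold fA ar
    rw [mul_assoc (2 * (π : ℂ)) δ]
  simp only [e]
  rw [h1]
  ring

/-- the sum of the logarithms of the factors of `R_d` -/
lemma Dt.sumA (hd : Dt δ₀ R b D c M L) (hR : 0 < R) (h1 : δ₀ ≤ 1) {ψ : ℂ}
    (hψ : ψ ∈ ball b R) {N m : ℕ} (hN : 0 < N) (hm : (m : ℝ) / N ≤ δ₀) :
    ‖(∑ j ∈ range m, fA ψ (((2 * j + 1) / (2 * N) : ℝ) : ℂ)) / N -
      ((m : ℂ) / N) * ∫ t in (0:ℝ)..1, fA ψ ((m : ℂ) / N * t)‖ ≤ L / N := by
  have hN' : (0 : ℝ) < N := by exact_mod_cast hN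
  have hD : ∀ x ∈ Set.Icc (0:ℝ) δ₀, (x : ℂ) ∈ D := fun x hx =>
    hd.mr x hx.1 (by linarith [hx.2])
  have hc : ContinuousOn (fun s : ℝ => fA ψ (s : ℂ)) (Set.Icc 0 δ₀) :=
    (hd.diff hψ).continuousOn.comp (by fun_prop) hD
  have h2 := riem (h := fun s : ℝ => fA ψ (s : ℂ)) (L := L) (W := δ₀) hd.L0 hc
    (fun x hx y hy => by
      have := hd.lip ψ hψ y (hD y hy) x (hD x hx)
      rwa [← Complex.ofReal_sub, Complex.norm_real, Real.norm_eq_abs] at this) hN m hm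
  have e1 : ((m : ℂ) / N) * ∫ t in (0:ℝ)..1, fA ψ ((m : ℂ) / N * t) =
      ∫ s in (0:ℝ)..((m : ℝ) / N), fA ψ (s : ℂ) := by
    have h2 := intervalIntegral.smul_integral_comp_mul_left (a := 0) (b := 1)
      (f := fun s : ℝ => fA ψ (s : ℂ)) ((m : ℝ) / N)
    rw [mul_zero, mul_one, Complex.real_smul] at h2
    rw [← h2]
    push_cast
    rfl
  rw [e1]
  refine h2.trans ?_
  rw [div_le_div_iff_of_pos_right hN']
  have h3 : (m : ℝ) / N ≤ 1 := hm.trans h1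
  have h4 : 0 ≤ (m : ℝ) / N := by positivity
  calc L * ((m : ℝ) / N) ≤ L * 1 := mul_le_mul_of_nonneg_left h3 hd.L0
    _ = L := mul_one L

/-- the factors of `R_d` -/
lemma Dt.exp_fA (hd : Dt δ₀ R b D c M L) {ψ : ℂ} (hψ : ψ ∈ ball b R) {N j : ℕ}
    (h1 : ((2 * j + 1) / (2 * N) : ℝ) ≤ δ₀ + 2 * R) (hN : 0 < N) :
    Complex.exp (fA ψ (((2 * j + 1) / (2 * N) : ℝ) : ℂ)) =
      2 * Complex.cos ψ + 2 * (Real.cos (W711.HT.phi N j) : ℂ) := by
  have hN' : (N : ℝ) ≠ 0 := by exact_mod_cast hN.ne'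
  have hz := hd.mr ((2 * j + 1) / (2 * N)) (by positivity) h1
  unfold fA
  rw [Complex.exp_log (hd.ne hψ hz)]
  unfold ar
  have e : (2 * π * (((2 * j + 1) / (2 * N) : ℝ) : ℂ) : ℂ) = ((W711.HT.phi N j : ℝ) : ℂ) := by
    have e' : 2 * π * ((2 * j + 1) / (2 * N)) = W711.HT.phi N j := by
      unfold W711.HT.phi
      field_simp
    rw [← e']
    push_cast
    ring
  rw [e, Complex.ofReal_cos]

open Classical in
/-- the first family -/
noncomputable def gA (δ₀ R : ℝ) (N : ℕ) (ψ z : ℂ) : ℂ :=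
  if z ∈ ball (δ₀ : ℂ) R then fA ψ (z + (1 / (2 * N) : ℝ)) else 0

lemma gA_of_mem {N : ℕ} {ψ z : ℂ} (hz : z ∈ ball (δ₀ : ℂ) R) :
    gA δ₀ R N ψ z = fA ψ (z + (1 / (2 * N) : ℝ)) := if_pos hz

lemma Dt.shift (hd : Dt δ₀ R b D c M L) {z : ℂ} (hz : z ∈ ball (δ₀ : ℂ) R) {x : ℝ} (h0 : 0 ≤ x)
    (h1 : x ≤ R) : z + x ∈ D := by
  apply hd.mb
  rw [mem_ball, dist_eq_norm] at hz ⊢
  have e : z + x - δ₀ = (z - δ₀) + ((x : ℝ) : ℂ) := by ring
  rw [e]
  refine (norm_add_le _ _).trans_lt ?_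
  rw [norm_cast_inv h0]
  linarith

lemma Dt.gA_diffψ (hd : Dt δ₀ R b D c M L) {N : ℕ} (hN : (1 / (2 * N) : ℝ) ≤ R) (z : ℂ) :
    DifferentiableOn ℂ (fun ψ => gA δ₀ R N ψ z) (ball b R) := by
  by_cases hz : z ∈ ball (δ₀ : ℂ) R
  · have e : (fun ψ => gA δ₀ R N ψ z) = fun ψ => fA ψ (z + (1 / (2 * N) : ℝ)) := by
      funext ψ
      exact gA_of_mem hz
    rw [e]
    exact hd.diffψ (hd.shift hz (by positivity) hN)
  · have e : (fun ψ => gA δ₀ R N ψ z) = fun _ => 0 := by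
      funext ψ
      exact if_neg hz
    rw [e]
    exact differentiableOn_const _

/-- coefficients of the first family -/
noncomputable def cf (δ₀ R : ℝ) (N m j : ℕ) (ψ : ℂ) : ℂ :=
  ∑ i ∈ range (j + 1), (-1 : ℂ) ^ (j - i) * (j.choose i : ℂ) * gA δ₀ R N ψ (((m + i : ℕ) : ℂ) / N)

lemma Dt.cf_diff (hd : Dt δ₀ R b D c M L) {N : ℕ} (hN : (1 / (2 * N) : ℝ) ≤ R) (m j : ℕ) :
    DifferentiableOn ℂ (cf δ₀ R N m j) (ball b R) := by
  unfold cf
  refine DifferentiableOn.fun_sum fun i _ => ?_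
  exact (hd.gA_diffψ hN _).const_mul _

/-- Newton interpolation, for one pair `(R, ρ)` -/
def NW (R ρ : ℝ) : Prop :=
  ∀ (y₀ : ℝ) (K : Type) (lam : ℕ → K → ℂ → ℂ) (lam' : K → ℂ → ℂ) (M : ℝ),
  (∀ᶠ N : ℕ in atTop, ∀ k, DifferentiableOn ℂ (lam N k) (ball (y₀ : ℂ) R)) →
  (∀ k, DifferentiableOn ℂ (lam' k) (ball (y₀ : ℂ) R)) →
  (∀ᶠ N : ℕ in atTop, ∀ k, ∀ z ∈ ball (y₀ : ℂ) R, ‖lam N k z‖ ≤ M) →
  (∀ ε : ℝ, 0 < ε → ∀ᶠ N : ℕ in atTop, ∀ k, ∀ z ∈ ball (y₀ : ℂ) R,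
    ‖lam N k z - lam' k z‖ ≤ ε) →
  ∀ m : ℕ → ℕ, (∀ᶠ N : ℕ in atTop, |(m N : ℝ) / N - (y₀ - ρ)| ≤ ρ / 4) →
  ∃ c : ℕ → ℕ → K → ℂ, ∃ D : ℕ → ℕ,
    (∀ N j k, c N j k = ∑ i ∈ range (j + 1), (-1 : ℂ) ^ (j - i) * (j.choose i : ℂ) *
      lam N k (((m N + i : ℕ) : ℂ) / N)) ∧
    (∀ᶠ N : ℕ in atTop, ∀ k, ∀ d : ℕ, |(d : ℝ) / N - y₀| ≤ ρ / 2 →
      ∑ j ∈ Ico (m N) d, lam N k ((j : ℂ) / N) =
        ∑ j ∈ range (D N), c N j k * ((∏ i ∈ range (j + 1), ((d : ℂ) - m N - i)) /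
          ((j + 1).factorial : ℂ))) ∧
    (∀ ε : ℝ, 0 < ε → ∀ᶠ N : ℕ in atTop, ∀ k, ∀ z ∈ ball (y₀ : ℂ) (ρ / 2),
      ‖(∑ j ∈ range (D N), c N j k * ((∏ i ∈ range (j + 1), (N * z - m N - i)) /
          ((j + 1).factorial : ℂ))) / N -
        (z - (m N : ℂ) / N) * ∫ t in (0:ℝ)..1, lam' k ((m N : ℂ) / N + (z - (m N : ℂ) / N) * t)‖ ≤ ε)

theorem nw_ex (R : ℝ) (hR : 0 < R) : ∃ ρ : ℝ, 0 < ρ ∧ ρ < R ∧ NW R ρ :=
  Pool.Agent.W176.HTN.newt R hR

/-- the node -/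
noncomputable def mN (δ₀ ρ : ℝ) (N : ℕ) : ℕ := ⌊(δ₀ - ρ) * (N : ℝ)⌋₊

lemma mN_tendsto {ρ : ℝ} (h : ρ ≤ δ₀) :
    Tendsto (fun N : ℕ => (mN δ₀ ρ N : ℝ) / N) atTop (𝓝 (δ₀ - ρ)) :=
  (tendsto_nat_floor_mul_div_atTop (R := ℝ) (a := δ₀ - ρ) (by linarith)).comp
      tendsto_natCast_atTop_atTop

lemma mN_ev {ρ : ℝ} (h0 : 0 < ρ) (h : ρ ≤ δ₀) :
    ∀ᶠ N : ℕ in atTop, |(mN δ₀ ρ N : ℝ) / N - (δ₀ - ρ)| ≤ ρ / 4 := by
  have := Metric.tendsto_nhds.1 (mN_tendsto h) (ρ / 4) (by linarith)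
  filter_upwards [this] with N hN
  rw [Real.dist_eq] at hN
  exact hN.le

lemma inv_ev {R : ℝ} (hR : 0 < R) : ∀ᶠ N : ℕ in atTop, 0 < N ∧ (1 / (2 * N) : ℝ) ≤ R ∧
    (1 / N : ℝ) ≤ R := by
  have h1 := (tendsto_one_div_atTop_nhds_zero_nat (𝕜 := ℝ)).eventually_lt_const hR
  filter_upwards [h1, eventually_gt_atTop 0] with N hN hN0
  have hN' : (0 : ℝ) < N := by exact_mod_cast hN0
  refine ⟨hN0, ?_, hN.le⟩
  refine le_trans ?_ hN.le
  rw [div_le_div_iff₀ (by positivity) hN']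
  linarith

/-- interpolation of `log R_d` -/
theorem famA (hd : Dt δ₀ R b D c M L) (hR : 0 < R) (h1 : δ₀ ≤ 1) {ρ : ℝ} (hρ0 : 0 < ρ)
    (hρR : ρ < R) (hρδ : ρ < δ₀) (hNw : NW R ρ) :
    ∃ r : ℕ → ℂ × ℂ → ℂ,
      (∀ᶠ N : ℕ in atTop, DifferentiableOn ℂ (r N) (ball (δ₀ : ℂ) (ρ / 2) ×ˢ ball b (ρ / 2))) ∧
      (∀ᶠ N : ℕ in atTop, ∀ d : ℕ, |(d : ℝ) / N - δ₀| < ρ / 2 → ∀ ψ ∈ ball b (ρ / 2),
        W711.HT.Rp N d ψ = Complex.exp (N * r N ((d : ℂ) / N, ψ))) ∧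
      TendstoUniformlyOn r (fun p => W711.HT.rrF p.1 p.2) atTop
        (ball (δ₀ : ℂ) (ρ / 2) ×ˢ ball b (ρ / 2)) := by
  have h0 : 0 < δ₀ := hρ0.trans hρδ
  obtain ⟨m, hm⟩ : ∃ m : ℕ → ℕ, m = mN δ₀ ρ := ⟨_, rfl⟩
  have hm1 : ∀ᶠ N : ℕ in atTop, |(m N : ℝ) / N - (δ₀ - ρ)| ≤ ρ / 4 := by
    rw [hm]
    exact mN_ev hρ0 hρδ.le
  have hm2 : ∀ᶠ N : ℕ in atTop, δ₀ - R < (m N : ℝ) / N := by
    rw [hm]
    exact (mN_tendsto hρδ.le).eventually_const_lt (by linarith)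
  have hbD : ball (δ₀ : ℂ) R ⊆ D := (ball_subset_ball (by linarith)).trans hd.mb
  obtain ⟨cA, DA, hcA, hsA, hlA⟩ := hNw δ₀ {ψ : ℂ // ψ ∈ ball b R}
    (fun N k z => gA δ₀ R N k.1 z) (fun k z => fA k.1 z) M
    (by
      filter_upwards [inv_ev hR] with N hN k
      have h1 : DifferentiableOn ℂ (fun z => fA k.1 (z + (1 / (2 * N) : ℝ))) (ball (δ₀ : ℂ) R) := by
        refine (hd.diff k.2).comp (by fun_prop) ?_
        intro z hz
        exact hd.shift hz (by positivity) hN.2.1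
      exact h1.congr fun z hz => gA_of_mem hz)
    (by
      intro k
      exact (hd.diff k.2).mono hbD)
    (by
      filter_upwards [inv_ev hR] with N hN k z hz
      rw [gA_of_mem hz]
      exact hd.nrm _ k.2 _ (hd.shift hz (by positivity) hN.2.1))
    (by
      intro ε hε
      have hlim : Tendsto (fun N : ℕ => L * ((1 / 2) * (1 / (N : ℝ)))) atTop (𝓝 0) := by
        have := ((tendsto_one_div_atTop_nhds_zero_nat (𝕜 := ℝ)).const_mul (1 / 2)).const_mul L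
        simpa using this
      filter_upwards [inv_ev hR, hlim.eventually_lt_const hε] with N hN hN2 k z hz
      rw [gA_of_mem hz]
      refine (hd.lip _ k.2 _ (hbD hz) _ (hd.shift hz (by positivity) hN.2.1)).trans ?_
      rw [add_sub_cancel_left, norm_cast_inv (by positivity)]
      refine le_trans (le_of_eq ?_) hN2.le
      ring)
    m hm1
  have hψs : ball b (ρ / 2) ⊆ ball b R := ball_subset_ball (by linarith)
  refine ⟨fun N p => (∑ j ∈ range (m N), fA p.2 (((2 * j + 1) / (2 * N) : ℝ) : ℂ)) / N +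
      (∑ j ∈ range (DA N), cf δ₀ R N (m N) j p.2 * nw N (m N) j p.1) / N, ?_, ?_, ?_⟩
  · -- differentiability of `r`
    filter_upwards [inv_ev hR, hm1] with N hN hmN
    have hN' : (0 : ℝ) < N := by exact_mod_cast hN.1
    have hs2 : Set.MapsTo Prod.snd (ball (δ₀ : ℂ) (ρ / 2) ×ˢ ball b (ρ / 2))
        (ball b R) := fun p hp => hψs hp.2
    refine DifferentiableOn.add (diffOn_div (DifferentiableOn.fun_sum
      fun j hj => ?_) _) (diffOn_div (DifferentiableOn.fun_sum fun j _ => ?_) _)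
    · have hj' : (j : ℝ) + 1 ≤ m N := by exact_mod_cast mem_range.1 hj
      have h1 : ((2 * j + 1) / (2 * N) : ℝ) ≤ δ₀ + 2 * R := by
        have h2 : ((2 * j + 1) / (2 * N) : ℝ) ≤ (m N : ℝ) / N := by
          rw [div_le_div_iff₀ (by positivity) hN']
          nlinarith
        have h3 := (abs_le.1 hmN).2
        linarith
      exact (hd.diffψ (hd.mr _ (by positivity) h1)).comp differentiable_snd.differentiableOn hs2
    · exact ((hd.cf_diff hN.2.1 _ _).comp differentiable_snd.differentiableOn hs2).mul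
        ((nw_diff _ _ _).comp differentiable_fst).differentiableOn
  · -- interpolation
    filter_upwards [inv_ev hR, hm1, hm2, hsA] with N hN hmN hmN2 hsA d hdd ψ hψ
    have hN0 : 0 < N := hN.1
    have hN' : (0 : ℝ) < N := by exact_mod_cast hN0
    have hNc : (N : ℂ) ≠ 0 := by exact_mod_cast hN0.ne'
    have hmd : m N ≤ d := by
      have h1 : (m N : ℝ) / N ≤ (d : ℝ) / N := by
        have h2 := (abs_le.1 hmN).2
        have h3 := (abs_lt.1 hdd).1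
        linarith
      rw [div_le_div_iff_of_pos_right hN'] at h1
      exact_mod_cast h1
    have hdN : (d : ℝ) / N < δ₀ + ρ / 2 := by
      have h3 := (abs_lt.1 hdd).2
      linarith
    have hjA : ∀ j ∈ Ico (m N) d, ((j : ℂ) / N) ∈ ball (δ₀ : ℂ) R := by
      intro j hj
      rw [mem_Ico] at hj
      have e : ((j : ℂ) / N) = (((j : ℝ) / N : ℝ) : ℂ) := by push_cast; rfl
      rw [e, mem_ball, dist_eq_norm, ← Complex.ofReal_sub, Complex.norm_real, Real.norm_eq_abs]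
      have h1 : (m N : ℝ) / N ≤ (j : ℝ) / N :=
        div_le_div_of_nonneg_right (by exact_mod_cast hj.1) hN'.le
      have h2 : (j : ℝ) / N ≤ (d : ℝ) / N :=
        div_le_div_of_nonneg_right (by exact_mod_cast hj.2.le) hN'.le
      rw [abs_lt]
      constructor <;> linarith
    have hnw : ∀ j, nw N (m N) j ((d : ℂ) / N) =
        (∏ i ∈ range (j + 1), ((d : ℂ) - m N - i)) / ((j + 1).factorial : ℂ) := by
      intro j
      unfold nw
      rw [mul_div_cancel₀ _ hNc]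
    have hψ' := hψs hψ
    have h1 := hsA ⟨ψ, hψ'⟩ d hdd.le
    have e1 : ∑ j ∈ range (DA N), cf δ₀ R N (m N) j ψ * nw N (m N) j ((d : ℂ) / N) =
        ∑ j ∈ Ico (m N) d, gA δ₀ R N ψ ((j : ℂ) / N) := by
      rw [h1]
      refine sum_congr rfl fun j _ => ?_
      rw [hnw, hcA]
      rfl
    have e2 : ∑ j ∈ Ico (m N) d, gA δ₀ R N ψ ((j : ℂ) / N) =
        ∑ j ∈ Ico (m N) d, fA ψ (((2 * j + 1) / (2 * N) : ℝ) : ℂ) := by
      refine sum_congr rfl fun j hj => ?_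
      rw [gA_of_mem (hjA j hj)]
      congr 1
      push_cast
      field_simp
    have e3 : (N : ℂ) * ((∑ j ∈ range (m N), fA ψ (((2 * j + 1) / (2 * N) : ℝ) : ℂ)) / N +
        (∑ j ∈ range (DA N), cf δ₀ R N (m N) j ψ * nw N (m N) j ((d : ℂ) / N)) / N) =
        ∑ j ∈ range d, fA ψ (((2 * j + 1) / (2 * N) : ℝ) : ℂ) := by
      rw [e1, e2, ← add_div, mul_div_cancel₀ _ hNc]
      exact sum_range_add_sum_Ico _ hmd
    show W711.HT.Rp N d ψ = Complex.exp ((N : ℂ) * ((∑ j ∈ range (m N),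
      fA ψ (((2 * j + 1) / (2 * N) : ℝ) : ℂ)) / N +
        (∑ j ∈ range (DA N), cf δ₀ R N (m N) j ψ * nw N (m N) j ((d : ℂ) / N)) / N))
    rw [e3, Complex.exp_sum]
    unfold W711.HT.Rp
    refine prod_congr rfl fun j hj => ?_
    rw [hd.exp_fA hψ' _ hN0]
    have hj' : (j : ℝ) + 1 ≤ d := by exact_mod_cast mem_range.1 hj
    have h2 : ((2 * j + 1) / (2 * N) : ℝ) ≤ (d : ℝ) / N := by
      rw [div_le_div_iff₀ (by positivity) hN']
      nlinarith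
    linarith
  · -- the limit of `r`
    rw [Metric.tendstoUniformlyOn_iff]
    intro ε hε
    have hlim : Tendsto (fun N : ℕ => L * (1 / (N : ℝ))) atTop (𝓝 0) := by
      have := (tendsto_one_div_atTop_nhds_zero_nat (𝕜 := ℝ)).const_mul L
      simpa using this
    filter_upwards [inv_ev hR, hm1, hlA (ε / 3) (by linarith),
      hlim.eventually_lt_const (by linarith : 0 < ε / 3)] with N hN hmN hlA hN8 p hp
    have hN0 : 0 < N := hN.1
    have hN' : (0 : ℝ) < N := by exact_mod_cast hN0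
    have hψ := hψs hp.2
    have hδ : p.1 ∈ D := hbD (ball_subset_ball (by linarith) hp.1)
    have hmN3 : (m N : ℝ) / N ≤ δ₀ := by
      have := (abs_le.1 hmN).2
      linarith
    have hw : ((m N : ℂ) / N) ∈ D := by
      have e : ((m N : ℂ) / N) = (((m N : ℝ) / N : ℝ) : ℂ) := by push_cast; rfl
      rw [e]
      exact hd.mr _ (by positivity) (by linarith)
    have h1 := hd.sumA hR h1 hψ hN0 hmN3
    have h2 := hlA ⟨p.2, hψ⟩ p.1 hp.1
    have h3 := hd.rrF_split hR h0.le hψ hδ hw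
    rw [dist_comm, dist_eq_norm]
    rw [h3]
    have e5 : ∑ j ∈ range (DA N), cf δ₀ R N (m N) j p.2 * nw N (m N) j p.1 =
        ∑ j ∈ range (DA N), cA N j ⟨p.2, hψ⟩ * ((∏ i ∈ range (j + 1), (N * p.1 - m N - i)) /
          ((j + 1).factorial : ℂ)) := by
      refine sum_congr rfl fun j _ => ?_
      rw [hcA]
      rfl
    rw [e5]
    refine lt_of_le_of_lt (le_trans (le_of_eq ?_) ((norm_add_le _ _).trans (add_le_add h1 h2))) ?_
    · congr 1
      ring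
    · have : L / N = L * (1 / N) := by ring
      linarith

end

end Pool.Agent.TH28.ZI
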